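import Mathlib

set_option autoImplicit false

namespace Pool.Agent.H952R2.Cubic

open MvPolynomial

universe u

/-- The cubic surface `F = 0` in `P^3` over the field `K` is smooth: `F` is homogeneous of degree
`3`, and at no geometric point of the surface do all partial derivatives of `F` vanish. -/
def SmoothCubicSurface (K : Type u) [Field K] (F : MvPolynomial (Fin 4) K) : Prop :=
  F.IsHomogeneous 3 ∧
  ∀ v : Fin 4 → AlgebraicClosure K, v ≠ 0 → aeval v F = 0 → ∃ i, aeval v (pderiv i F) ≠ 0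

/-- A nonconstant morphism, defined over `K`, from the projective line to the surface `F = 0` in
`P^3`: four binary forms over `K` of the same degree `d > 0`, without a common zero in
`P^1` over the algebraic closure, which satisfy the equation `F = 0`. -/
structure RatCurve (K : Type u) [Field K] (F : MvPolynomial (Fin 4) K) where
  /-- the degree of the forms -/
  d : ℕ
  d_pos : 0 < d
  /-- the four binary forms -/
  φ : Fin 4 → MvPolynomial (Fin 2) K
  homog : ∀ i, (φ i).IsHomogeneous d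
  noCommonZero : ∀ u : Fin 2 → AlgebraicClosure K, u ≠ 0 → ∃ i, aeval u (φ i) ≠ 0
  onSurface : aeval φ F = 0

/-- The rational curve (the image of the morphism) contains the point of `P^3` with
coordinates `x`. -/
def RatCurve.Contains {K : Type u} [Field K] {F : MvPolynomial (Fin 4) K} (C : RatCurve K F)
    (x : Fin 4 → K) : Prop :=
  ∃ u : Fin 2 → AlgebraicClosure K, u ≠ 0 ∧ ∃ a : AlgebraicClosure K, a ≠ 0 ∧
    ∀ i, aeval u (C.φ i) = a * algebraMap K (AlgebraicClosure K) (x i)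

section tensor

variable {K : Type u} [Field K]

theorem tensor_rep {F : MvPolynomial (Fin 4) K} (hF : F.IsHomogeneous 3) :
    ∃ c : Fin 4 → Fin 4 → Fin 4 → K,
      F = ∑ i, ∑ j, ∑ k, MvPolynomial.C (c i j k) * (X i * X j * X k) := by
  have h1 : F ∈ (homogeneousSubmodule (Fin 4) K 1) ^ 3 := by
    rw [homogeneousSubmodule_one_pow]
    exact hF
  have key1 : ∀ m ∈ homogeneousSubmodule (Fin 4) K 1, ∃ a : Fin 4 → K,
      m = ∑ i, MvPolynomial.C (a i) * X i := by
    intro m hm
    rw [homogeneousSubmodule_one_eq_span_X] at hm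
    induction hm using Submodule.span_induction with
    | mem x hx =>
      obtain ⟨i, rfl⟩ := hx
      refine ⟨Pi.single i 1, ?_⟩
      rw [Finset.sum_eq_single i]
      · simp
      · intro j _ hj
        simp [Pi.single_eq_of_ne hj]
      · simp
    | zero => exact ⟨0, by simp⟩
    | add x y _ _ hx hy =>
      obtain ⟨a, rfl⟩ := hx
      obtain ⟨b, rfl⟩ := hy
      refine ⟨a + b, ?_⟩
      rw [← Finset.sum_add_distrib]
      refine Finset.sum_congr rfl fun i _ => ?_
      rw [Pi.add_apply, map_add]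
      ring
    | smul r x _ hx =>
      obtain ⟨a, rfl⟩ := hx
      refine ⟨r • a, ?_⟩
      rw [Finset.smul_sum]
      refine Finset.sum_congr rfl fun i _ => ?_
      rw [Pi.smul_apply, smul_eq_mul, map_mul, smul_eq_C_mul]
      ring
  have key2 : ∀ m ∈ (homogeneousSubmodule (Fin 4) K 1) ^ 2, ∃ a : Fin 4 → Fin 4 → K,
      m = ∑ i, ∑ j, MvPolynomial.C (a i j) * (X i * X j) := by
    intro m hm
    rw [pow_two] at hm
    refine Submodule.mul_induction_on hm ?_ ?_
    · intro x hx y hy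
      obtain ⟨a, rfl⟩ := key1 x hx
      obtain ⟨b, rfl⟩ := key1 y hy
      refine ⟨fun i j => a i * b j, ?_⟩
      rw [Finset.sum_mul]
      refine Finset.sum_congr rfl fun i _ => ?_
      rw [Finset.mul_sum]
      refine Finset.sum_congr rfl fun j _ => ?_
      rw [map_mul]
      ring
    · rintro x y ⟨a, rfl⟩ ⟨b, rfl⟩
      refine ⟨a + b, ?_⟩
      rw [← Finset.sum_add_distrib]
      refine Finset.sum_congr rfl fun i _ => ?_
      rw [← Finset.sum_add_distrib]
      refine Finset.sum_congr rfl fun j _ => ?_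
      rw [Pi.add_apply, Pi.add_apply, map_add]
      ring
  rw [pow_succ] at h1
  refine Submodule.mul_induction_on h1 ?_ ?_
  · intro x hx y hy
    obtain ⟨a, rfl⟩ := key2 x hx
    obtain ⟨b, rfl⟩ := key1 y hy
    refine ⟨fun i j k => a i j * b k, ?_⟩
    rw [Finset.sum_mul]
    refine Finset.sum_congr rfl fun i _ => ?_
    rw [Finset.sum_mul]
    refine Finset.sum_congr rfl fun j _ => ?_
    rw [Finset.mul_sum]
    refine Finset.sum_congr rfl fun k _ => ?_
    rw [map_mul]
    ring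
  · rintro x y ⟨a, rfl⟩ ⟨b, rfl⟩
    refine ⟨a + b, ?_⟩
    rw [← Finset.sum_add_distrib]
    refine Finset.sum_congr rfl fun i _ => ?_
    rw [← Finset.sum_add_distrib]
    refine Finset.sum_congr rfl fun j _ => ?_
    rw [← Finset.sum_add_distrib]
    refine Finset.sum_congr rfl fun k _ => ?_
    rw [Pi.add_apply, Pi.add_apply, Pi.add_apply, map_add]
    ring

/-- the trilinear form with coefficients `c` on a `K`-algebra -/
def T (c : Fin 4 → Fin 4 → Fin 4 → K) {S : Type u} [CommRing S] [Algebra K S]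
    (u v w : Fin 4 → S) : S :=
  ∑ i, ∑ j, ∑ k, algebraMap K S (c i j k) * u i * v j * w k

theorem aeval_eq_T (c : Fin 4 → Fin 4 → Fin 4 → K) {S : Type u} [CommRing S] [Algebra K S]
    (v : Fin 4 → S) :
    aeval v (∑ i, ∑ j, ∑ k, MvPolynomial.C (c i j k) * (X i * X j * X k)) = T c v v v := by
  unfold T
  simp only [map_sum, map_mul, aeval_X, aeval_C]
  refine Finset.sum_congr rfl fun i _ => Finset.sum_congr rfl fun j _ =>
    Finset.sum_congr rfl fun k _ => ?_
  ring

theorem aeval_pderiv_eq_T (c : Fin 4 → Fin 4 → Fin 4 → K) {S : Type u} [CommRing S] [Algebra K S]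
    (v : Fin 4 → S) (a : Fin 4) :
    aeval v (pderiv a (∑ i, ∑ j, ∑ k, MvPolynomial.C (c i j k) * (X i * X j * X k))) =
      T c (Pi.single a 1) v v + T c v (Pi.single a 1) v + T c v v (Pi.single a 1) := by
  unfold T
  simp only [map_sum, Derivation.leibniz, pderiv_X, pderiv_C, smul_eq_mul, map_add, map_mul,
    aeval_X, aeval_C, ← Finset.sum_add_distrib]
  refine Finset.sum_congr rfl fun i _ => Finset.sum_congr rfl fun j _ =>
    Finset.sum_congr rfl fun k _ => ?_
  have h : ∀ i : Fin 4, (aeval v) ((Pi.single a 1 : Fin 4 → MvPolynomial (Fin 4) K) i) =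
      (Pi.single a 1 : Fin 4 → S) i := by
    intro i
    by_cases hi : i = a
    · subst hi; simp
    · simp [Pi.single_eq_of_ne hi]
  simp only [map_zero, h i, h j, h k]
  ring

theorem T_add₁ (c : Fin 4 → Fin 4 → Fin 4 → K) {S : Type u} [CommRing S] [Algebra K S]
    (u u' v w : Fin 4 → S) : T c (u + u') v w = T c u v w + T c u' v w := by
  unfold T
  simp only [← Finset.sum_add_distrib, Pi.add_apply]
  refine Finset.sum_congr rfl fun i _ => Finset.sum_congr rfl fun j _ =>
    Finset.sum_congr rfl fun k _ => ?_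
  ring

theorem T_add₂ (c : Fin 4 → Fin 4 → Fin 4 → K) {S : Type u} [CommRing S] [Algebra K S]
    (u v v' w : Fin 4 → S) : T c u (v + v') w = T c u v w + T c u v' w := by
  unfold T
  simp only [← Finset.sum_add_distrib, Pi.add_apply]
  refine Finset.sum_congr rfl fun i _ => Finset.sum_congr rfl fun j _ =>
    Finset.sum_congr rfl fun k _ => ?_
  ring

theorem T_add₃ (c : Fin 4 → Fin 4 → Fin 4 → K) {S : Type u} [CommRing S] [Algebra K S]
    (u v w w' : Fin 4 → S) : T c u v (w + w') = T c u v w + T c u v w' := by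
  unfold T
  simp only [← Finset.sum_add_distrib, Pi.add_apply]
  refine Finset.sum_congr rfl fun i _ => Finset.sum_congr rfl fun j _ =>
    Finset.sum_congr rfl fun k _ => ?_
  ring

theorem T_smul₁ (c : Fin 4 → Fin 4 → Fin 4 → K) {S : Type u} [CommRing S] [Algebra K S]
    (r : S) (u v w : Fin 4 → S) : T c (r • u) v w = r * T c u v w := by
  unfold T
  simp only [Finset.mul_sum, Pi.smul_apply, smul_eq_mul]
  refine Finset.sum_congr rfl fun i _ => Finset.sum_congr rfl fun j _ =>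
    Finset.sum_congr rfl fun k _ => ?_
  ring

theorem T_smul₂ (c : Fin 4 → Fin 4 → Fin 4 → K) {S : Type u} [CommRing S] [Algebra K S]
    (r : S) (u v w : Fin 4 → S) : T c u (r • v) w = r * T c u v w := by
  unfold T
  simp only [Finset.mul_sum, Pi.smul_apply, smul_eq_mul]
  refine Finset.sum_congr rfl fun i _ => Finset.sum_congr rfl fun j _ =>
    Finset.sum_congr rfl fun k _ => ?_
  ring

theorem T_smul₃ (c : Fin 4 → Fin 4 → Fin 4 → K) {S : Type u} [CommRing S] [Algebra K S]
    (r : S) (u v w : Fin 4 → S) : T c u v (r • w) = r * T c u v w := by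
  unfold T
  simp only [Finset.mul_sum, Pi.smul_apply, smul_eq_mul]
  refine Finset.sum_congr rfl fun i _ => Finset.sum_congr rfl fun j _ =>
    Finset.sum_congr rfl fun k _ => ?_
  ring

/-- linear combination of the vectors `b p` with coefficients `X p` -/
def comb (b : Fin 4 → Fin 4 → K) {S : Type u} [CommRing S] [Algebra K S] (x : Fin 4 → S) :
    Fin 4 → S :=
  fun i => ∑ p, x p * algebraMap K S (b p i)

theorem comb_eq (b : Fin 4 → Fin 4 → K) {S : Type u} [CommRing S] [Algebra K S] (x : Fin 4 → S) :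
    comb b x = x 0 • (fun i => algebraMap K S (b 0 i)) + x 1 • (fun i => algebraMap K S (b 1 i)) +
      x 2 • (fun i => algebraMap K S (b 2 i)) + x 3 • (fun i => algebraMap K S (b 3 i)) := by
  funext i
  simp [comb, Fin.sum_univ_four]

theorem T_map (c : Fin 4 → Fin 4 → Fin 4 → K) {S : Type u} [CommRing S] [Algebra K S]
    (u v w : Fin 4 → K) :
    T c (fun i => algebraMap K S (u i)) (fun i => algebraMap K S (v i))
      (fun i => algebraMap K S (w i)) = algebraMap K S (T c u v w) := by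
  unfold T
  simp only [map_sum, map_mul, Algebra.algebraMap_self, RingHom.id_apply]

/-- directional derivative -/
def D (c : Fin 4 → Fin 4 → Fin 4 → K) {S : Type u} [CommRing S] [Algebra K S]
    (v u : Fin 4 → S) : S :=
  T c u v v + T c v u v + T c v v u

end tensor

/-- coefficients of a cubic form `w^2 z + w q(x,y) + w z m(x,y,z) + g(x,y) + z h(x,y,z)` -/
structure Co (S : Type u) where
  (α β γ m1 m2 m3 k l n r h1 h2 h3 h4 h5 h6 : S)

/-- change of ring -/
def Co.map {S S' : Type u} (c : Co S) (f : S → S') : Co S' :=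
  ⟨f c.α, f c.β, f c.γ, f c.m1, f c.m2, f c.m3, f c.k, f c.l, f c.n, f c.r,
    f c.h1, f c.h2, f c.h3, f c.h4, f c.h5, f c.h6⟩

/-- the value of the cubic form -/
def Co.ev {S : Type u} [CommRing S] (c : Co S) (x y z w : S) : S :=
  w ^ 2 * z + w * (c.α * x ^ 2 + c.β * x * y + c.γ * y ^ 2) +
    w * z * (c.m1 * x + c.m2 * y + c.m3 * z) +
    (c.k * x ^ 3 + c.l * x ^ 2 * y + c.n * x * y ^ 2 + c.r * y ^ 3) +
    z * (c.h1 * x ^ 2 + c.h2 * x * y + c.h3 * y ^ 2 + c.h4 * x * z + c.h5 * y * z + c.h6 * z ^ 2)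

/-- polarisation: derivative at `(x,y,z,w)` in the direction `(x',y',z',w')` -/
def Co.pol {S : Type u} [CommRing S] (c : Co S) (x y z w x' y' z' w' : S) : S :=
  2 * w * w' * z + w ^ 2 * z' + w' * (c.α * x ^ 2 + c.β * x * y + c.γ * y ^ 2) +
    w * (2 * c.α * x * x' + c.β * (x * y' + x' * y) + 2 * c.γ * y * y') +
    (w' * z + w * z') * (c.m1 * x + c.m2 * y + c.m3 * z) +
    w * z * (c.m1 * x' + c.m2 * y' + c.m3 * z') +
    (3 * c.k * x ^ 2 * x' + c.l * (2 * x * x' * y + x ^ 2 * y') +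
      c.n * (x' * y ^ 2 + 2 * x * y * y') + 3 * c.r * y ^ 2 * y') +
    z' * (c.h1 * x ^ 2 + c.h2 * x * y + c.h3 * y ^ 2 + c.h4 * x * z + c.h5 * y * z + c.h6 * z ^ 2) +
    z * (2 * c.h1 * x * x' + c.h2 * (x * y' + x' * y) + 2 * c.h3 * y * y' +
      c.h4 * (x * z' + x' * z) + c.h5 * (y * z' + y' * z) + 2 * c.h6 * z * z')

section nf

variable {K : Type u} [Field K]

theorem normal_form (c : Fin 4 → Fin 4 → Fin 4 → K) (b : Fin 4 → Fin 4 → K)
    (h3 : T c (b 3) (b 3) (b 3) = 0) (h0 : D c (b 3) (b 0) = 0) (h1 : D c (b 3) (b 1) = 0)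
    (h2 : D c (b 3) (b 2) = 1) :
    ∃ C : Co K, ∀ (S : Type u) [CommRing S] [Algebra K S] (x : Fin 4 → S),
      T c (comb b x) (comb b x) (comb b x) =
        (C.map (algebraMap K S)).ev (x 0) (x 1) (x 2) (x 3) ∧
      ∀ y : Fin 4 → S, D c (comb b x) (comb b y) =
        (C.map (algebraMap K S)).pol (x 0) (x 1) (x 2) (x 3) (y 0) (y 1) (y 2) (y 3) := by
  unfold D at h0 h1 h2
  let t : Fin 4 → Fin 4 → Fin 4 → K := fun p q r => T c (b p) (b q) (b r)
  refine ⟨⟨t 0 0 3 + t 0 3 0 + t 3 0 0,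
    t 0 1 3 + t 0 3 1 + t 1 0 3 + t 1 3 0 + t 3 0 1 + t 3 1 0,
    t 1 1 3 + t 1 3 1 + t 3 1 1,
    t 0 2 3 + t 0 3 2 + t 2 0 3 + t 2 3 0 + t 3 0 2 + t 3 2 0,
    t 1 2 3 + t 1 3 2 + t 2 1 3 + t 2 3 1 + t 3 1 2 + t 3 2 1,
    t 2 2 3 + t 2 3 2 + t 3 2 2,
    t 0 0 0, t 0 0 1 + t 0 1 0 + t 1 0 0, t 0 1 1 + t 1 0 1 + t 1 1 0, t 1 1 1,
    t 0 0 2 + t 0 2 0 + t 2 0 0,
    t 0 1 2 + t 0 2 1 + t 1 0 2 + t 1 2 0 + t 2 0 1 + t 2 1 0,
    t 1 1 2 + t 1 2 1 + t 2 1 1,
    t 0 2 2 + t 2 0 2 + t 2 2 0, t 1 2 2 + t 2 1 2 + t 2 2 1, t 2 2 2⟩, ?_⟩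
  intro S _ _ x
  have h3' : algebraMap K S (t 3 3 3) = 0 := by simp only [t]; rw [h3, map_zero]
  have h0' : algebraMap K S (t 0 3 3) + algebraMap K S (t 3 0 3) + algebraMap K S (t 3 3 0) = 0 := by
    simp only [t]; rw [← map_add, ← map_add, h0, map_zero]
  have h1' : algebraMap K S (t 1 3 3) + algebraMap K S (t 3 1 3) + algebraMap K S (t 3 3 1) = 0 := by
    simp only [t]; rw [← map_add, ← map_add, h1, map_zero]
  have h2' : algebraMap K S (t 2 3 3) + algebraMap K S (t 3 2 3) + algebraMap K S (t 3 3 2) = 1 := by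
    simp only [t]; rw [← map_add, ← map_add, h2, map_one]
  have e : ∀ p q r, T c (b p) (b q) (b r) = t p q r := fun _ _ _ => rfl
  refine ⟨?_, fun y => ?_⟩
  · rw [comb_eq]
    simp only [T_add₁, T_add₂, T_add₃, T_smul₁, T_smul₂, T_smul₃, T_map]
    simp only [Co.map, Co.ev, map_add]
    simp only [e]
    linear_combination (x 3) ^ 3 * h3' + (x 3) ^ 2 * x 0 * h0' + (x 3) ^ 2 * x 1 * h1' +
      (x 3) ^ 2 * x 2 * h2'
  · rw [comb_eq, comb_eq]
    unfold D
    simp only [T_add₁, T_add₂, T_add₃, T_smul₁, T_smul₂, T_smul₃, T_map]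
    simp only [Co.map, Co.pol, map_add]
    simp only [e]
    linear_combination 3 * (x 3) ^ 2 * y 3 * h3' + (2 * x 3 * y 3 * x 0 + (x 3) ^ 2 * y 0) * h0' +
      (2 * x 3 * y 3 * x 1 + (x 3) ^ 2 * y 1) * h1' +
      (2 * x 3 * y 3 * x 2 + (x 3) ^ 2 * y 2) * h2'

end nf

end Pool.Agent.H952R2.Cubic
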