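import Pool.Agent.H952R2.Cubic.Cases

set_option autoImplicit false

namespace Pool.Agent.H952R2.Cubic

open Polynomial

universe u

theorem Co.ev_comb {S : Type u} [CommRing S] (c : Co S) (a b x y z w x' y' z' w' : S) :
    c.ev (a * x + b * x') (a * y + b * y') (a * z + b * z') (a * w + b * w') =
      a ^ 3 * c.ev x y z w + a ^ 2 * b * c.pol x y z w x' y' z' w' +
      a * b ^ 2 * c.pol x' y' z' w' x y z w + b ^ 3 * c.ev x' y' z' w' := by
  simp only [Co.ev, Co.pol]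
  ring

theorem on_surface {R : Type u} [CommRing R] (c : Co R) (hα : c.α = 0) (hβ : c.β = 0)
    (hγ : c.γ = 0) (ω κ B1 B2 D1 D2 : R) (hω : ω ^ 2 + c.m3 * ω + c.h6 = 0)
    (R1 : -c.m3 * B1 + 2 * D1 + c.m1 = 0) (R2 : c.m3 * D1 + c.h4 - 2 * c.h6 * B1 = 0)
    (R3 : -c.m3 * B2 + 2 * D2 + c.m2 = 0) (R4 : c.m3 * D2 + c.h5 - 2 * c.h6 * B2 = 0)
    (A g L : R)
    (hA : A = c.h1 * κ ^ 2 + c.h2 * κ + c.h3 - (D1 * κ + D2) ^ 2 - c.h6 * (B1 * κ + B2) ^ 2 +
      c.m3 * (B1 * κ + B2) * (D1 * κ + D2))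
    (hg : g = c.k * κ ^ 3 + c.l * κ ^ 2 + c.n * κ + c.r)
    (hL : L = (B1 * κ + B2) * ω + (D1 * κ + D2)) :
    c.ev (-A * κ) (-A) g (ω * g - A * L) = 0 := by
  have E1 : (2 * ω + c.m3) * L + (c.m1 * κ + c.m2) * ω + (c.h4 * κ + c.h5) = 0 := by
    rw [hL]
    linear_combination κ * (2 * B1 * hω + ω * R1 + R2) + (2 * B2 * hω + ω * R3 + R4)
  have E2 : L ^ 2 + L * (c.m1 * κ + c.m2) + (c.h1 * κ ^ 2 + c.h2 * κ + c.h3) - A = 0 := by
    rw [hL, hA]
    linear_combination (B1 * κ + B2) ^ 2 * hω +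
      (ω * (B1 * κ + B2) + (D1 * κ + D2)) * (κ * R1 + R3)
  simp only [Co.ev, hα, hβ, hγ]
  have e : -A * κ * 0 = 0 := by ring
  linear_combination g * (g ^ 2 * hω - g * A * E1 + A ^ 2 * E2) + A ^ 3 * hg

theorem third_point {S : Type u} [CommRing S] (c : Co S) (g0 m0 e x y z w x' y' z' w' : S)
    (h1 : c.ev x y z w = g0 * e)
    (h2 : c.pol x y z w x' y' z' w' = m0 * e + g0 * c.ev x' y' z' w')
    (h3 : c.pol x' y' z' w' x y z w = e + m0 * c.ev x' y' z' w') :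
    c.ev (c.ev x' y' z' w' * x + (-e) * x') (c.ev x' y' z' w' * y + (-e) * y')
      (c.ev x' y' z' w' * z + (-e) * z') (c.ev x' y' z' w' * w + (-e) * w') = 0 := by
  rw [Co.ev_comb, h1, h2, h3]
  ring

theorem Co.ev_map {S S' : Type u} [CommRing S] [CommRing S'] (f : S →+* S') (c : Co S)
    (x y z w : S) : (c.map f).ev (f x) (f y) (f z) (f w) = f (c.ev x y z w) := by
  simp only [Co.ev, Co.map, map_add, map_mul, map_pow]

theorem Co.pol_map {S S' : Type u} [CommRing S] [CommRing S'] (f : S →+* S') (c : Co S)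
    (x y z w x' y' z' w' : S) :
    (c.map f).pol (f x) (f y) (f z) (f w) (f x') (f y') (f z') (f w') =
      f (c.pol x y z w x' y' z' w') := by
  simp only [Co.pol, Co.map, map_add, map_mul, map_pow, map_ofNat]

theorem conj_point {S : Type u} [CommRing S] (c : Co S) (x y z w x' y' z' w' e : S)
    (h : (c.map (algebraMap S (QuadraticAlgebra S (-c.h6) (-c.m3)))).ev
      ⟨x, x'⟩ ⟨y, y'⟩ ⟨z, z'⟩ ⟨w, w'⟩ = 0)
    (he : e = c.pol x' y' z' w' x y z w - c.m3 * c.ev x' y' z' w') :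
    c.ev x y z w = c.h6 * e ∧
    c.pol x y z w x' y' z' w' = c.m3 * e + c.h6 * c.ev x' y' z' w' := by
  set f : S →+* QuadraticAlgebra S (-c.h6) (-c.m3) := algebraMap S _ with hf
  set ω : QuadraticAlgebra S (-c.h6) (-c.m3) := ⟨0, 1⟩ with hω
  have hmk : ∀ a b : S, (⟨a, b⟩ : QuadraticAlgebra S (-c.h6) (-c.m3)) = 1 * f a + ω * f b := by
    intro a b
    ext <;> simp [hf, hω]
  have hω2 : ω ^ 2 = - f c.m3 * ω - f c.h6 := by
    ext <;> simp [hf, hω, pow_two]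
  rw [hmk x x', hmk y y', hmk z z', hmk w w', Co.ev_comb, Co.ev_map, Co.ev_map, Co.pol_map,
    Co.pol_map] at h
  have h' : f (c.ev x y z w - c.h6 * e) * 1 +
      f (c.pol x y z w x' y' z' w' - c.m3 * e - c.h6 * c.ev x' y' z' w') * ω = 0 := by
    rw [← h, he]
    simp only [map_sub, map_mul]
    linear_combination (-f (c.pol x' y' z' w' x y z w) - ω * f (c.ev x' y' z' w') +
      f c.m3 * f (c.ev x' y' z' w')) * hω2
  have h1 := congrArg QuadraticAlgebra.re h'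
  have h2 := congrArg QuadraticAlgebra.im h'
  simp [hf, hω] at h1 h2
  constructor
  · linear_combination h1
  · linear_combination h2

end Pool.Agent.H952R2.Cubic
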