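import Pool.Agent.H952R2.Cubic.CaseD

set_option autoImplicit false
set_option linter.unusedSimpArgs false

namespace Pool.Agent.H952R2.Cubic

open Polynomial

universe u

variable {K : Type u} [Field K]

/-- the binary cubic form `g` has no nontrivial zero over `K` -/
def Aniso (c : Co K) : Prop :=
  ∀ μ ν : K, c.k * μ ^ 3 + c.l * μ ^ 2 * ν + c.n * μ * ν ^ 2 + c.r * ν ^ 3 = 0 → μ = 0 ∧ ν = 0

theorem good_D0 (c : Co K) (hα : c.α = 0) (hβ : c.β = 0) (hγ : c.γ = 0) (w0 : K)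
    (hw : 2 * w0 + c.m3 = 0) (hw2 : w0 ^ 2 + c.m3 * w0 + c.h6 = 0) (hg : Aniso c) : Good c := by
  obtain ⟨μ, ν, hμν, hΛ⟩ : ∃ μ ν : K, ¬ (μ = 0 ∧ ν = 0) ∧
      (c.m1 * w0 + c.h4) * μ + (c.m2 * w0 + c.h5) * ν = 0 := by
    by_cases h : c.m1 * w0 + c.h4 = 0 ∧ c.m2 * w0 + c.h5 = 0
    · exact ⟨1, 0, by simp, by rw [h.1, h.2]; ring⟩
    · refine ⟨c.m2 * w0 + c.h5, -(c.m1 * w0 + c.h4), ?_, by ring⟩
      rintro ⟨h1, h2⟩
      exact h ⟨neg_eq_zero.mp h2, h1⟩
  obtain ⟨g, hgdef⟩ : ∃ g, g = c.k * μ ^ 3 + c.l * μ ^ 2 * ν + c.n * μ * ν ^ 2 + c.r * ν ^ 3 :=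
    ⟨_, rfl⟩
  have hg0 : g ≠ 0 := by
    intro h
    rw [hgdef] at h
    exact hμν (hg μ ν h)
  obtain ⟨M, hM⟩ : ∃ M, M = c.m1 * μ + c.m2 * ν := ⟨_, rfl⟩
  obtain ⟨G, hG⟩ : ∃ G, G = c.h1 * μ ^ 2 + c.h2 * μ * ν + c.h3 * ν ^ 2 := ⟨_, rfl⟩
  obtain ⟨R, hR⟩ : ∃ R : K[X], R = 1 + C M * X + C G * X ^ 2 := ⟨_, rfl⟩
  have hw' := congrArg (C : K → K[X]) hw
  have hw2' := congrArg (C : K → K[X]) hw2
  have hΛ' := congrArg (C : K → K[X]) hΛ
  have hgdef' := congrArg (C : K → K[X]) hgdef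
  have hM' := congrArg (C : K → K[X]) hM
  have hG' := congrArg (C : K → K[X]) hG
  simp only [map_add, map_mul, map_pow, map_zero, map_ofNat] at hw' hw2' hΛ' hgdef' hM' hG'
  refine ⟨X * R * C μ, X * R * C ν, -(C g * X ^ 3), -(C g * C w0 * X ^ 3) + R, 0,
    ?_, by simp, by simp, by simp, ?_, ?_⟩
  · simp only [Co.ev, Co.map, hα, hβ, hγ, map_zero]
    have hz : ∃ z : K[X], z = -(C g * X ^ 3) := ⟨_, rfl⟩
    obtain ⟨z, hz⟩ := hz
    have hw3 : -(C g * C w0 * X ^ 3) = C w0 * z := by rw [hz]; ring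
    rw [hw3, ← hz]
    have hR2 : R = 1 + (C c.m1 * C μ + C c.m2 * C ν) * X +
        (C c.h1 * C μ ^ 2 + C c.h2 * C μ * C ν + C c.h3 * C ν ^ 2) * X ^ 2 := by
      rw [hR, hM', hG']
    have hz2 : z = -((C c.k * C μ ^ 3 + C c.l * C μ ^ 2 * C ν + C c.n * C μ * C ν ^ 2 +
        C c.r * C ν ^ 3) * X ^ 3) := by rw [hz, hgdef']
    linear_combination z ^ 2 * R * hw' + z ^ 3 * hw2' + z ^ 2 * X * R * hΛ' -
      z * R ^ 2 * hR2 + R ^ 3 * hz2
  · simp [hR]
  · right; right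
    rw [neg_ne_zero]
    exact mul_ne_zero (C_ne_zero.mpr hg0) (pow_ne_zero _ X_ne_zero)

theorem good_D1 (c : Co K) (hα : c.α = 0) (hβ : c.β = 0) (hγ : c.γ = 0)
    (hd : c.m3 ^ 2 - 4 * c.h6 ≠ 0) (hg : Aniso c)
    (hA : (c.m3 ^ 2 - 4 * c.h6) * c.h1 + c.m1 ^ 2 * c.h6 - c.m3 * c.m1 * c.h4 + c.h4 ^ 2 ≠ 0 ∨
      (c.m3 ^ 2 - 4 * c.h6) * c.h2 + 2 * c.m1 * c.m2 * c.h6 - c.m3 * (c.m1 * c.h5 + c.m2 * c.h4) +
        2 * c.h4 * c.h5 ≠ 0 ∨
      (c.m3 ^ 2 - 4 * c.h6) * c.h3 + c.m2 ^ 2 * c.h6 - c.m3 * c.m2 * c.h5 + c.h5 ^ 2 ≠ 0) :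
    Good c := by
  obtain ⟨d, hdd⟩ : ∃ d, d = c.m3 ^ 2 - 4 * c.h6 := ⟨_, rfl⟩
  rw [← hdd] at hd hA
  obtain ⟨B1, hB1⟩ : ∃ B1, B1 = (c.m3 * c.m1 - 2 * c.h4) / d := ⟨_, rfl⟩
  obtain ⟨B2, hB2⟩ : ∃ B2, B2 = (c.m3 * c.m2 - 2 * c.h5) / d := ⟨_, rfl⟩
  obtain ⟨D1, hD1⟩ : ∃ D1, D1 = (2 * c.m1 * c.h6 - c.m3 * c.h4) / d := ⟨_, rfl⟩
  obtain ⟨D2, hD2⟩ : ∃ D2, D2 = (2 * c.m2 * c.h6 - c.m3 * c.h5) / d := ⟨_, rfl⟩
  have R1 : -c.m3 * B1 + 2 * D1 + c.m1 = 0 := by
    rw [hB1, hD1]; field_simp; rw [hdd]; ring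
  have R2 : c.m3 * D1 + c.h4 - 2 * c.h6 * B1 = 0 := by
    rw [hB1, hD1]; field_simp; rw [hdd]; ring
  have R3 : -c.m3 * B2 + 2 * D2 + c.m2 = 0 := by
    rw [hB2, hD2]; field_simp; rw [hdd]; ring
  have R4 : c.m3 * D2 + c.h5 - 2 * c.h6 * B2 = 0 := by
    rw [hB2, hD2]; field_simp; rw [hdd]; ring
  obtain ⟨A1, hA1⟩ : ∃ A1, A1 = c.h1 - D1 ^ 2 - c.h6 * B1 ^ 2 + c.m3 * B1 * D1 := ⟨_, rfl⟩
  obtain ⟨A2, hA2⟩ : ∃ A2, A2 = c.h2 - 2 * D1 * D2 - 2 * c.h6 * B1 * B2 +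
    c.m3 * (B1 * D2 + B2 * D1) := ⟨_, rfl⟩
  obtain ⟨A3, hA3⟩ : ∃ A3, A3 = c.h3 - D2 ^ 2 - c.h6 * B2 ^ 2 + c.m3 * B2 * D2 := ⟨_, rfl⟩
  have hA' : A1 ≠ 0 ∨ A2 ≠ 0 ∨ A3 ≠ 0 := by
    rcases hA with h | h | h
    · left
      intro h0
      apply h
      have : d * A1 = d * c.h1 + c.m1 ^ 2 * c.h6 - c.m3 * c.m1 * c.h4 + c.h4 ^ 2 := by
        rw [hA1, hD1, hB1]; field_simp; rw [hdd]; ring
      rw [← this, h0, mul_zero]
    · right; left
      intro h0
      apply h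
      have : d * A2 = d * c.h2 + 2 * c.m1 * c.m2 * c.h6 - c.m3 * (c.m1 * c.h5 + c.m2 * c.h4) +
          2 * c.h4 * c.h5 := by
        rw [hA2, hD1, hB1, hD2, hB2]; field_simp; rw [hdd]; ring
      rw [← this, h0, mul_zero]
    · right; right
      intro h0
      apply h
      have : d * A3 = d * c.h3 + c.m2 ^ 2 * c.h6 - c.m3 * c.m2 * c.h5 + c.h5 ^ 2 := by
        rw [hA3, hD2, hB2]; field_simp; rw [hdd]; ring
      rw [← this, h0, mul_zero]
  have hk : c.k ≠ 0 := by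
    intro h0
    have := (hg 1 0 (by rw [h0]; ring)).1
    exact one_ne_zero this
  obtain ⟨Ap, hAp⟩ : ∃ Ap : K[X], Ap = C A1 * X ^ 2 + C A2 * X + C A3 := ⟨_, rfl⟩
  obtain ⟨gp, hgp⟩ : ∃ gp : K[X], gp = C c.k * X ^ 3 + C c.l * X ^ 2 + C c.n * X + C c.r :=
    ⟨_, rfl⟩
  obtain ⟨Dp, hDp⟩ : ∃ Dp : K[X], Dp = gp - Ap * (C B1 * X + C B2) := ⟨_, rfl⟩
  have hAp0 : Ap ≠ 0 := by
    intro h0
    rw [hAp] at h0
    have e0 := congrArg (fun p => coeff p 0) h0
    have e1 := congrArg (fun p => coeff p 1) h0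
    have e2 := congrArg (fun p => coeff p 2) h0
    simp [coeff_X, coeff_C] at e0 e1 e2
    rcases hA' with h | h | h
    · exact h e2
    · exact h e1
    · exact h e0
  have hgp0 : gp ≠ 0 := by
    intro h0
    rw [hgp] at h0
    have e3 := congrArg (fun p => coeff p 3) h0
    simp [coeff_X, coeff_C] at e3
    exact hk e3
  have hDp0 : Dp ≠ 0 := by
    intro h0
    rw [hDp, sub_eq_zero] at h0
    have hB1' : B1 ≠ 0 := by
      intro h1
      rw [hgp, hAp, h1, map_zero, zero_mul, zero_add] at h0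
      have e3 := congrArg (fun p => coeff p 3) h0
      simp [coeff_X, coeff_C, add_mul, mul_assoc] at e3
      exact hk e3
    have h2 := congrArg (eval (-B2 / B1)) h0
    rw [hgp] at h2
    simp only [eval_add, eval_mul, eval_C, eval_X, eval_pow] at h2
    have h3 : B1 * (-B2 / B1) + B2 = 0 := by field_simp; ring
    rw [h3, mul_zero] at h2
    have h4 := (hg (-B2 / B1) 1 (by linear_combination h2)).2
    exact one_ne_zero h4
  -- a suitable geometric point of the line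
  obtain ⟨v, hv⟩ : ∃ v : K[X], v = C 1 + X * (Dp * gp * Ap) := ⟨_, rfl⟩
  have hne : Dp * gp * Ap ≠ 0 := mul_ne_zero (mul_ne_zero hDp0 hgp0) hAp0
  have hvdeg : v.degree ≠ 0 := by
    have h1 : v.natDegree = 1 + (Dp * gp * Ap).natDegree := by
      rw [hv, natDegree_C_add, natDegree_X_mul hne, add_comm]
    intro h2
    have h3 : v.natDegree = 0 := natDegree_eq_of_degree_eq_some h2
    omega
  have hv0 : v ≠ 0 := by
    intro h0
    have := congrArg (eval 0) h0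
    rw [hv] at this
    simp at this
  obtain ⟨t, ht⟩ := IsAlgClosed.exists_aeval_eq_zero (AlgebraicClosure K) v hvdeg
  have hprod : aeval t Dp * aeval t gp * aeval t Ap ≠ 0 := by
    intro h0
    rw [hv] at ht
    simp only [map_add, map_mul, aeval_X, map_one] at ht
    rw [h0, mul_zero, add_zero] at ht
    exact one_ne_zero ht
  have hDt : aeval t Dp ≠ 0 := fun h => hprod (by rw [h]; ring)
  have hgt : aeval t gp ≠ 0 := fun h => hprod (by rw [h]; ring)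
  have hAt : aeval t Ap ≠ 0 := fun h => hprod (by rw [h]; ring)
  -- the point over the quadratic algebra
  set cX : Co K[X] := c.map C with hcX
  let Q := QuadraticAlgebra K[X] (-cX.h6) (-cX.m3)
  let f : K[X] →+* Q := algebraMap K[X] Q
  let ω : Q := ⟨0, 1⟩
  let κ : Q := ⟨X, v⟩
  let AQ : Q := f (C A1) * κ ^ 2 + f (C A2) * κ + f (C A3)
  let gQ : Q := f (C c.k) * κ ^ 3 + f (C c.l) * κ ^ 2 + f (C c.n) * κ + f (C c.r)
  let LQ : Q := (f (C B1) * κ + f (C B2)) * ω + (f (C D1) * κ + f (C D2))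
  have hωQ : ω ^ 2 + f cX.m3 * ω + f cX.h6 = 0 := by
    apply QuadraticAlgebra.ext
    · simp [ω, f, Q, pow_two]
    · simp [ω, f, Q, pow_two]
  have hsurf : (cX.map f).ev (-AQ * κ) (-AQ) gQ (ω * gQ - AQ * LQ) = 0 := by
    have key : ∀ {a : K}, a = 0 → f (C a) = 0 := fun h => by rw [h, map_zero, map_zero]
    refine on_surface (cX.map f) (key hα) (key hβ) (key hγ) ω κ (f (C B1)) (f (C B2)) (f (C D1))
      (f (C D2)) hωQ ?_ ?_ ?_ ?_ AQ gQ LQ ?_ rfl rfl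
    · have := key R1
      simp only [map_add, map_mul, map_neg, map_sub, map_ofNat] at this
      exact this
    · have := key R2
      simp only [map_add, map_mul, map_neg, map_sub, map_ofNat] at this
      exact this
    · have := key R3
      simp only [map_add, map_mul, map_neg, map_sub, map_ofNat] at this
      exact this
    · have := key R4
      simp only [map_add, map_mul, map_neg, map_sub, map_ofNat] at this
      exact this
    · change f (C A1) * κ ^ 2 + f (C A2) * κ + f (C A3) = f (C c.h1) * κ ^ 2 + f (C c.h2) * κ +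
        f (C c.h3) - (f (C D1) * κ + f (C D2)) ^ 2 - f (C c.h6) * (f (C B1) * κ + f (C B2)) ^ 2 +
        f (C c.m3) * (f (C B1) * κ + f (C B2)) * (f (C D1) * κ + f (C D2))
      rw [hA1, hA2, hA3]
      simp only [map_add, map_mul, map_sub, map_pow, map_ofNat]
      ring
  obtain ⟨e, he⟩ : ∃ e, e = cX.pol (-AQ * κ).im (-AQ).im gQ.im (ω * gQ - AQ * LQ).im
      (-AQ * κ).re (-AQ).re gQ.re (ω * gQ - AQ * LQ).re -
      cX.m3 * cX.ev (-AQ * κ).im (-AQ).im gQ.im (ω * gQ - AQ * LQ).im := ⟨_, rfl⟩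
  obtain ⟨h1, h2⟩ := conj_point cX (-AQ * κ).re (-AQ).re gQ.re (ω * gQ - AQ * LQ).re
    (-AQ * κ).im (-AQ).im gQ.im (ω * gQ - AQ * LQ).im e hsurf he
  have h3 := third_point cX _ _ e _ _ _ _ _ _ _ _ h1 h2 (by rw [he]; ring)
  -- evaluation at `t`
  have hmre : ∀ p q : Q, (p * q).re = p.re * q.re + (-cX.h6) * p.im * q.im := fun p q => rfl
  have hmim : ∀ p q : Q, (p * q).im = p.re * q.im + p.im * q.re + (-cX.m3) * p.im * q.im :=
    fun p q => rfl
  have hare : ∀ p q : Q, (p + q).re = p.re + q.re := fun p q => rfl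
  have haim : ∀ p q : Q, (p + q).im = p.im + q.im := fun p q => rfl
  have hsre : ∀ p q : Q, (p - q).re = p.re - q.re := fun p q => rfl
  have hsim : ∀ p q : Q, (p - q).im = p.im - q.im := fun p q => rfl
  have hnre : ∀ p : Q, (-p).re = -p.re := fun p => rfl
  have hnim : ∀ p : Q, (-p).im = -p.im := fun p => rfl
  have hfre : ∀ p, (f p).re = p := fun p => rfl
  have hfim : ∀ p, (f p).im = 0 := fun p => rfl
  have hκre : κ.re = X := rfl
  have hκim : κ.im = v := rfl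
  have hωre : ω.re = 0 := rfl
  have hωim : ω.im = 1 := rfl
  have hκ2 : κ ^ 2 = κ * κ := pow_two κ
  have hκ3 : κ ^ 3 = κ * κ * κ := by ring
  have hAre : aeval t AQ.re = aeval t Ap := by
    simp only [AQ, hmre, hare, hfre, hfim, hκ2, hκre, hκim, map_add, map_mul, aeval_X, ht, hAp,
      map_pow, hmim, mul_zero, zero_mul, add_zero]
    ring
  have hAim : aeval t AQ.im = 0 := by
    simp only [AQ, hmre, hmim, haim, hare, hfre, hfim, hκ2, hκre, hκim, map_add, map_mul, aeval_X,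
      ht, map_pow, mul_zero, zero_mul, add_zero, zero_add]
  have hgre : aeval t gQ.re = aeval t gp := by
    simp only [gQ, hmre, hare, hfre, hfim, hκ2, hκ3, hκre, hκim, map_add, map_mul, aeval_X, ht, hgp,
      map_pow, hmim, mul_zero, zero_mul, add_zero]
    ring
  have hgim : aeval t gQ.im = 0 := by
    simp only [gQ, hmre, hmim, haim, hare, hfre, hfim, hκ2, hκ3, hκre, hκim, map_add, map_mul,
      aeval_X, ht, map_pow, mul_zero, zero_mul, add_zero, zero_add]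
  have hLim : aeval t LQ.im = aeval t (C B1 * X + C B2) := by
    simp only [LQ, hmre, hmim, haim, hare, hfre, hfim, hκre, hκim, hωre, hωim, map_add, map_mul,
      aeval_X, ht, map_pow, mul_zero, zero_mul, add_zero, zero_add, map_zero, map_one, mul_one]
  have hx' : aeval t (-AQ * κ).im = 0 := by
    rw [hmim, hnre, hnim, hκre, hκim]
    simp only [map_add, map_mul, map_neg, hAim, ht]
    ring
  have hy' : aeval t (-AQ).im = 0 := by
    rw [hnim, map_neg, hAim, neg_zero]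
  have hw' : aeval t (ω * gQ - AQ * LQ).im = aeval t Dp := by
    rw [hsim, hmim, hmim, hωre, hωim]
    simp only [map_add, map_mul, map_sub, map_neg, map_zero, map_one, hAim, hgre, hgim, hAre, hLim,
      hDp]
    ring
  have hev' : aeval t (cX.ev (-AQ * κ).im (-AQ).im gQ.im (ω * gQ - AQ * LQ).im) = 0 := by
    simp only [Co.ev, map_add, map_mul, map_pow, hx', hy', hgim]
    ring
  have het : aeval t e = aeval t Dp ^ 2 * aeval t gp := by
    rw [he, map_sub, map_mul, hev']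
    simp only [Co.pol, map_add, map_mul, map_pow, hx', hy', hgim, hw', hgre]
    ring
  have het0 : aeval t e ≠ 0 := by
    rw [het]
    exact mul_ne_zero (pow_ne_zero _ hDt) hgt
  refine ⟨_, _, _, _, t, h3, ?_, ?_, ?_, ?_, ?_⟩
  · simp only [map_add, map_mul, map_neg, hev', hx']; ring
  · simp only [map_add, map_mul, map_neg, hev', hy']; ring
  · simp only [map_add, map_mul, map_neg, hev', hgim]; ring
  · simp only [map_add, map_mul, map_neg, hev', hw']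
    rw [zero_mul, zero_add, neg_mul, neg_ne_zero]
    exact mul_ne_zero het0 hDt
  · have hcross : (-AQ * κ).re * (-AQ).im - (-AQ).re * (-AQ * κ).im =
        -(v * (AQ.re ^ 2 - cX.m3 * AQ.re * AQ.im + cX.h6 * AQ.im ^ 2)) := by
      rw [hmre, hmim, hnre, hnim, hκre, hκim]
      ring
    by_contra hcon
    push Not at hcon
    obtain ⟨e1, e2, -⟩ := hcon
    have h5 : e * ((-AQ * κ).re * (-AQ).im - (-AQ).re * (-AQ * κ).im) = 0 := by
      linear_combination (-AQ * κ).re * -e2 + (-AQ).re * e1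
    rw [hcross] at h5
    have he0 : e ≠ 0 := by
      intro h0
      rw [h0, map_zero] at het0
      exact het0 rfl
    rcases mul_eq_zero.mp h5 with h6 | h6
    · exact he0 h6
    · rw [neg_eq_zero] at h6
      rcases mul_eq_zero.mp h6 with h7 | h7
      · exact hv0 h7
      · have := congrArg (aeval t) h7
        simp only [map_add, map_mul, map_sub, map_pow, hAre, hAim, map_zero] at this
        have h8 : aeval t Ap ^ 2 = 0 := by linear_combination this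
        exact hAt (pow_eq_zero_iff (two_ne_zero) |>.mp h8)

end Pool.Agent.H952R2.Cubic
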