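import Pool.Agent.H952R2.Cubic.Base

set_option autoImplicit false

namespace Pool.Agent.H952R2.Cubic

open Polynomial

universe u

variable {K : Type u} [Field K]

/-- the cubic form vanishes on a polynomial curve through the point `(0,0,0,1)` -/
def Good (c : Co K) : Prop :=
  ∃ (ψ0 ψ1 ψ2 ψ3 : K[X]) (s : AlgebraicClosure K),
    (c.map Polynomial.C).ev ψ0 ψ1 ψ2 ψ3 = 0 ∧
    aeval s ψ0 = 0 ∧ aeval s ψ1 = 0 ∧ aeval s ψ2 = 0 ∧ aeval s ψ3 ≠ 0 ∧
    (ψ0 ≠ 0 ∨ ψ1 ≠ 0 ∨ ψ2 ≠ 0)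

theorem good_line (c : Co K) (μ ν : K) (h : μ ≠ 0 ∨ ν ≠ 0)
    (h1 : c.α * μ ^ 2 + c.β * μ * ν + c.γ * ν ^ 2 = 0)
    (h2 : c.k * μ ^ 3 + c.l * μ ^ 2 * ν + c.n * μ * ν ^ 2 + c.r * ν ^ 3 = 0) : Good c := by
  refine ⟨C μ * X, C ν * X, 0, 1, 0, ?_, by simp, by simp, by simp, by simp, ?_⟩
  · simp only [Co.ev, Co.map]
    have h1' := congrArg (C : K → K[X]) h1
    have h2' := congrArg (C : K → K[X]) h2
    simp only [map_add, map_mul, map_pow, map_zero] at h1' h2'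
    linear_combination X ^ 2 * h1' + X ^ 3 * h2'
  · rcases h with h | h
    · left
      exact mul_ne_zero (C_ne_zero.mpr h) X_ne_zero
    · right; left
      exact mul_ne_zero (C_ne_zero.mpr h) X_ne_zero

theorem good_cubic (c : Co K) (s : AlgebraicClosure K)
    (h : c.α ≠ 0 ∨ c.β ≠ 0 ∨ c.γ ≠ 0)
    (h1 : algebraMap K _ c.α * s ^ 2 + algebraMap K _ c.β * s + algebraMap K _ c.γ = 0)
    (h2 : algebraMap K _ c.k * s ^ 3 + algebraMap K _ c.l * s ^ 2 + algebraMap K _ c.n * s +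
      algebraMap K _ c.r ≠ 0) : Good c := by
  refine ⟨X * (C c.α * X ^ 2 + C c.β * X + C c.γ), C c.α * X ^ 2 + C c.β * X + C c.γ, 0,
    -(C c.k * X ^ 3 + C c.l * X ^ 2 + C c.n * X + C c.r), s, ?_, ?_, ?_, ?_, ?_, ?_⟩
  · simp only [Co.ev, Co.map]
    ring
  · simp only [map_mul, map_add, aeval_X, aeval_C, map_pow]
    rw [h1, mul_zero]
  · simp only [map_mul, map_add, aeval_X, aeval_C, map_pow]
    exact h1
  · simp
  · simp only [map_mul, map_add, aeval_X, aeval_C, map_pow, map_neg]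
    exact neg_ne_zero.mpr h2
  · right; left
    intro h0
    have e0 := congrArg (fun p => coeff p 0) h0
    have e1 := congrArg (fun p => coeff p 1) h0
    have e2 := congrArg (fun p => coeff p 2) h0
    simp [coeff_X, coeff_C] at e0 e1 e2
    rcases h with h | h | h
    · exact h e2
    · exact h e1
    · exact h e0

theorem good_cubic_infty (c : Co K) (h : c.β ≠ 0 ∨ c.γ ≠ 0) (h1 : c.α = 0) (h2 : c.k ≠ 0) :
    Good c := by
  refine ⟨C c.β * X + C c.γ * X ^ 2, X * (C c.β * X + C c.γ * X ^ 2), 0,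
    -(C c.k + C c.l * X + C c.n * X ^ 2 + C c.r * X ^ 3), 0, ?_, ?_, ?_, ?_, ?_, ?_⟩
  · simp only [Co.ev, Co.map, h1, map_zero]
    ring
  · simp
  · simp
  · simp
  · simp only [map_mul, map_add, aeval_X, aeval_C, map_pow, map_neg]
    rw [neg_ne_zero]
    simpa using h2
  · left
    intro h0
    have e1 := congrArg (fun p => coeff p 1) h0
    have e2 := congrArg (fun p => coeff p 2) h0
    simp [coeff_X] at e1 e2
    rcases h with h | h
    · exact h e1
    · exact h e2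

/-- change of the coordinate `w` -/
def Co.shear (c : Co K) (p q : K) : Co K :=
  ⟨c.α, c.β, c.γ, c.m1 - 2 * p, c.m2 - 2 * q, c.m3,
    c.k - c.α * p, c.l - c.α * q - c.β * p, c.n - c.β * q - c.γ * p, c.r - c.γ * q,
    c.h1 + p ^ 2 - p * c.m1, c.h2 + 2 * p * q - p * c.m2 - q * c.m1, c.h3 + q ^ 2 - q * c.m2,
    c.h4 - p * c.m3, c.h5 - q * c.m3, c.h6⟩

theorem good_shear (c : Co K) (p q : K) (h : Good (c.shear p q)) : Good c := by
  obtain ⟨ψ0, ψ1, ψ2, ψ3, s, h1, h2, h3, h4, h5, h6⟩ := h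
  refine ⟨ψ0, ψ1, ψ2, ψ3 - C p * ψ0 - C q * ψ1, s, ?_, h2, h3, h4, ?_, h6⟩
  · rw [← h1]
    simp only [Co.ev, Co.map, Co.shear, map_add, map_sub, map_mul, map_pow, map_ofNat]
    ring
  · rw [map_sub, map_sub, map_mul, map_mul, h2, h3, mul_zero, mul_zero, sub_zero, sub_zero]
    exact h5

/-- translation -/
def Co.trans (c : Co K) (a b : K) : Co K :=
  ⟨c.α, c.β, c.γ, c.m1, c.m2, c.m1 * a + c.m2 * b + c.m3,
    c.k, c.l, c.n, c.r,
    3 * c.k * a + c.l * b + c.h1, 2 * c.l * a + 2 * c.n * b + c.h2, c.n * a + 3 * c.r * b + c.h3,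
    3 * c.k * a ^ 2 + 2 * c.l * a * b + c.n * b ^ 2 + 2 * c.h1 * a + c.h2 * b + c.h4,
    c.l * a ^ 2 + 2 * c.n * a * b + 3 * c.r * b ^ 2 + c.h2 * a + 2 * c.h3 * b + c.h5,
    c.k * a ^ 3 + c.l * a ^ 2 * b + c.n * a * b ^ 2 + c.r * b ^ 3 + c.h1 * a ^ 2 +
      c.h2 * a * b + c.h3 * b ^ 2 + c.h4 * a + c.h5 * b + c.h6⟩

theorem good_trans (c : Co K) (hα : c.α = 0) (hβ : c.β = 0) (hγ : c.γ = 0) (a b : K)
    (h : Good (c.trans a b)) : Good c := by
  obtain ⟨ψ0, ψ1, ψ2, ψ3, s, h1, h2, h3, h4, h5, h6⟩ := h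
  refine ⟨ψ0 + C a * ψ2, ψ1 + C b * ψ2, ψ2, ψ3, s, ?_, ?_, ?_, h4, h5, ?_⟩
  · rw [← h1]
    simp only [Co.ev, Co.map, Co.trans, map_add, map_sub, map_mul, map_pow, map_ofNat, hα, hβ, hγ,
      map_zero]
    ring
  · rw [map_add, map_mul, h2, h4, mul_zero, add_zero]
  · rw [map_add, map_mul, h3, h4, mul_zero, add_zero]
  · by_cases h7 : ψ2 = 0
    · rw [h7, mul_zero, mul_zero, add_zero, add_zero]
      rcases h6 with h | h | h
      · exact Or.inl h
      · exact Or.inr (Or.inl h)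
      · exact absurd h7 h
    · exact Or.inr (Or.inr h7)

theorem good_conic (c : Co K) (hα : c.α ≠ 0) (hd : c.β ^ 2 - 4 * c.α * c.γ ≠ 0)
    (hk : c.k = 0) (hl : c.l = 0) (hn : c.n = 0) (hr : c.r = 0)
    (s : AlgebraicClosure K)
    (h1 : algebraMap K _ c.α * s ^ 2 + algebraMap K _ c.β * s + algebraMap K _ c.γ = 0)
    (h2 : algebraMap K _ c.h1 * s ^ 2 + algebraMap K _ c.h2 * s + algebraMap K _ c.h3 ≠ 0) :
    Good c := by
  obtain ⟨a, ha⟩ : ∃ a : K[X], a = C c.α * X ^ 2 - C c.γ := ⟨_, rfl⟩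
  obtain ⟨b, hb⟩ : ∃ b : K[X], b = 2 * C c.α * X + C c.β := ⟨_, rfl⟩
  obtain ⟨n, hn'⟩ : ∃ n : K[X], n = C c.α * X ^ 2 + C c.β * X + C c.γ := ⟨_, rfl⟩
  obtain ⟨H, hH⟩ : ∃ H : K[X], H = C c.h1 * a ^ 2 + C c.h2 * a * b + C c.h3 * b ^ 2 := ⟨_, rfl⟩
  have hq : C c.α * a ^ 2 + C c.β * a * b + C c.γ * b ^ 2 = C c.α * n ^ 2 := by
    rw [ha, hb, hn']; ring
  obtain ⟨B, hB⟩ : ∃ B : K[X], B = -H * (2 * C c.α * a + C c.β * b) +
      C c.α * n ^ 2 * (2 * C c.h1 * a + C c.h2 * b + C c.h4 * a * (C c.α * n) +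
        C c.h5 * b * (C c.α * n)) - C c.α * n * H * (C c.m1 * a + C c.m2 * b) := ⟨_, rfl⟩
  obtain ⟨G, hG⟩ : ∃ G : K[X], G = -H + H ^ 2 + n ^ 2 * (C c.h1 + C c.h4 * (C c.α * n) +
      C c.h6 * (C c.α * n) ^ 2) - n * H * (C c.m1 + C c.m3 * (C c.α * n)) := ⟨_, rfl⟩
  have hns : aeval s n = 0 := by
    rw [hn']
    simp only [map_mul, map_add, aeval_X, aeval_C, map_pow]
    exact h1
  have hbs : aeval s b ≠ 0 := by
    intro h0
    rw [hb] at h0
    simp only [map_mul, map_add, aeval_X, aeval_C, map_ofNat] at h0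
    apply hd
    apply (algebraMap K (AlgebraicClosure K)).injective
    rw [map_zero, map_sub, map_pow, map_mul, map_mul, map_ofNat]
    linear_combination (2 * algebraMap K (AlgebraicClosure K) c.α * s +
      algebraMap K (AlgebraicClosure K) c.β) * h0 - 4 * algebraMap K (AlgebraicClosure K) c.α * h1
  have has : aeval s a = s * aeval s b := by
    rw [ha, hb]
    simp only [map_mul, map_add, map_sub, aeval_X, aeval_C, map_pow, map_ofNat]
    linear_combination -h1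
  have hHs : aeval s H ≠ 0 := by
    rw [hH]
    simp only [map_mul, map_add, aeval_X, aeval_C, map_pow, has]
    have : algebraMap K (AlgebraicClosure K) c.h1 * (s * aeval s b) ^ 2 +
        algebraMap K (AlgebraicClosure K) c.h2 * (s * aeval s b) * aeval s b +
        algebraMap K (AlgebraicClosure K) c.h3 * aeval s b ^ 2 = aeval s b ^ 2 *
        (algebraMap K _ c.h1 * s ^ 2 + algebraMap K _ c.h2 * s + algebraMap K _ c.h3) := by ring
    rw [this]
    exact mul_ne_zero (pow_ne_zero _ hbs) h2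
  have hBs : aeval s B = - aeval s H * aeval s b ^ 2 := by
    rw [hB]
    simp only [map_mul, map_add, map_sub, map_neg, aeval_C, map_pow, map_ofNat, hns, has]
    have : aeval s b = 2 * algebraMap K (AlgebraicClosure K) c.α * s +
      algebraMap K (AlgebraicClosure K) c.β := by
      rw [hb]
      simp only [map_mul, map_add, aeval_X, aeval_C, map_ofNat]
    linear_combination aeval s H * aeval s b * this
  have hBs' : aeval s B ≠ 0 := by
    rw [hBs]
    exact mul_ne_zero (neg_ne_zero.mpr hHs) (pow_ne_zero _ hbs)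
  refine ⟨n * (B - C c.α * G * a), -(C c.α * n * G * b), C c.α * n ^ 2 * B, -(H * B), s,
    ?_, ?_, ?_, ?_, ?_, ?_⟩
  · simp only [Co.ev, Co.map, hk, hl, hn, hr, map_zero]
    have e : (-(H * B)) ^ 2 * (C c.α * n ^ 2 * B) +
        (-(H * B)) * (C c.α * (n * (B - C c.α * G * a)) ^ 2 +
          C c.β * (n * (B - C c.α * G * a)) * (-(C c.α * n * G * b)) +
          C c.γ * (-(C c.α * n * G * b)) ^ 2) +
        (-(H * B)) * (C c.α * n ^ 2 * B) * (C c.m1 * (n * (B - C c.α * G * a)) +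
          C c.m2 * (-(C c.α * n * G * b)) + C c.m3 * (C c.α * n ^ 2 * B)) +
        (C c.α * n ^ 2 * B) * (C c.h1 * (n * (B - C c.α * G * a)) ^ 2 +
          C c.h2 * (n * (B - C c.α * G * a)) * (-(C c.α * n * G * b)) +
          C c.h3 * (-(C c.α * n * G * b)) ^ 2 +
          C c.h4 * (n * (B - C c.α * G * a)) * (C c.α * n ^ 2 * B) +
          C c.h5 * (-(C c.α * n * G * b)) * (C c.α * n ^ 2 * B) +
          C c.h6 * (C c.α * n ^ 2 * B) ^ 2) = 0 := by
      have e1 : -H * (2 * C c.α * a + C c.β * b) +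
        C c.α * n ^ 2 * (2 * C c.h1 * a + C c.h2 * b + C c.h4 * a * (C c.α * n) +
        C c.h5 * b * (C c.α * n)) - C c.α * n * H * (C c.m1 * a + C c.m2 * b) = B := hB.symm
      have e2 : -H + H ^ 2 + n ^ 2 * (C c.h1 + C c.h4 * (C c.α * n) +
        C c.h6 * (C c.α * n) ^ 2) - n * H * (C c.m1 + C c.m3 * (C c.α * n)) = G := hG.symm
      have e3 : C c.h1 * a ^ 2 + C c.h2 * a * b + C c.h3 * b ^ 2 = H := hH.symm
      linear_combination (-(n ^ 2 * (C c.α) ^ 2 * B * G ^ 2 * H)) * hq +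
        (n ^ 2 * B * (C c.α) ^ 3 * n ^ 2 * G ^ 2) * e3 +
        (- n ^ 2 * B * C c.α * B * G) * e1 + (C c.α * n ^ 2 * B * B ^ 2) * e2
    linear_combination e
  · rw [map_mul, hns, zero_mul]
  · rw [map_neg, map_mul, map_mul, map_mul, hns]; ring
  · rw [map_mul, map_mul, map_pow, hns]; ring
  · rw [map_neg, map_mul, neg_ne_zero]
    exact mul_ne_zero hHs hBs'
  · right; right
    refine mul_ne_zero (mul_ne_zero (C_ne_zero.mpr hα) (pow_ne_zero _ ?_)) ?_
    · intro h0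
      rw [hn'] at h0
      have e2 := congrArg (fun p => coeff p 2) h0
      simp [coeff_X, coeff_C] at e2
      exact hα e2
    · intro h0
      rw [h0, map_zero] at hBs'
      exact hBs' rfl

end Pool.Agent.H952R2.Cubic
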