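import Pool.Agent.H952R2.Cubic.Base

set_option autoImplicit false

namespace Pool.Agent.H952R2.Cubic

open MvPolynomial

universe u

variable {K : Type u} [Field K]

theorem T_algHom (c : Fin 4 → Fin 4 → Fin 4 → K) {S S' : Type u} [CommRing S] [Algebra K S]
    [CommRing S'] [Algebra K S'] (f : S →ₐ[K] S') (u v w : Fin 4 → S) :
    f (T c u v w) = T c (fun i => f (u i)) (fun i => f (v i)) (fun i => f (w i)) := by
  unfold T
  simp only [map_sum, map_mul, AlgHom.commutes]

/-- homogenisation of a polynomial in one variable, as a form of degree `d` -/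
noncomputable def hom2 (d : ℕ) (p : Polynomial K) : MvPolynomial (Fin 2) K :=
  ∑ k ∈ Finset.range (d + 1), MvPolynomial.C (p.coeff k) * (X 0 ^ k * X 1 ^ (d - k))

theorem hom2_homog (d : ℕ) (p : Polynomial K) : (hom2 d p).IsHomogeneous d := by
  unfold hom2
  refine IsHomogeneous.sum _ _ _ fun k hk => ?_
  rw [Finset.mem_range] at hk
  have h1 : (MvPolynomial.C (p.coeff k) : MvPolynomial (Fin 2) K).IsHomogeneous 0 :=
    isHomogeneous_C _ _
  have h2 : (X 0 ^ k * X 1 ^ (d - k) : MvPolynomial (Fin 2) K).IsHomogeneous d := by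
    have h3 := (isHomogeneous_X_pow (R := K) (0 : Fin 2) k).mul
      (isHomogeneous_X_pow (R := K) (1 : Fin 2) (d - k))
    have h4 : k + (d - k) = d := by omega
    rwa [h4] at h3
  have := h1.mul h2
  rwa [zero_add] at this

theorem aeval_hom2 (d : ℕ) (p : Polynomial K) (hp : p.natDegree ≤ d)
    (u : Fin 2 → AlgebraicClosure K) (hu : u 1 ≠ 0) :
    aeval u (hom2 d p) = u 1 ^ d * Polynomial.aeval (u 0 / u 1) p := by
  unfold hom2
  rw [Polynomial.aeval_eq_sum_range' (Nat.lt_succ_of_le hp), Finset.mul_sum, map_sum]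
  refine Finset.sum_congr rfl fun k hk => ?_
  rw [Finset.mem_range] at hk
  simp only [map_mul, aeval_C, map_pow, aeval_X, Algebra.smul_def]
  have h4 : u 1 ^ d = u 1 ^ k * u 1 ^ (d - k) := by rw [← pow_add]; congr 1; omega
  rw [h4, div_pow]
  field_simp

theorem aeval_hom2_zero (d : ℕ) (p : Polynomial K)
    (u : Fin 2 → AlgebraicClosure K) (hu : u 1 = 0) :
    aeval u (hom2 d p) = algebraMap K _ (p.coeff d) * u 0 ^ d := by
  unfold hom2
  rw [map_sum, Finset.sum_eq_single d]
  · simp
  · intro k hk hkd
    rw [Finset.mem_range] at hk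
    have : d - k ≠ 0 := by omega
    simp [hu, this]
  · intro h
    exact absurd (Finset.mem_range.mpr (Nat.lt_succ_self d)) h

theorem exists_ratCurve {F : MvPolynomial (Fin 4) K} (hF : F.IsHomogeneous 3)
    (ψ : Fin 4 → Polynomial K) (hψ : aeval ψ F = 0) (x : Fin 4 → K) (hx : x ≠ 0)
    (s a : AlgebraicClosure K) (ha : a ≠ 0)
    (hs : ∀ i, Polynomial.aeval s (ψ i) = a * algebraMap K _ (x i))
    (hnc : ∃ i j, ψ i * Polynomial.C (x j) ≠ ψ j * Polynomial.C (x i)) :
    ∃ C : RatCurve K F, C.Contains x := by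
  obtain ⟨c, rfl⟩ := tensor_rep hF
  -- divide by the greatest common divisor
  obtain ⟨g, hg⟩ : ∃ g, Ideal.span (Set.range ψ) = Ideal.span {g} := by
    have := IsPrincipalIdealRing.principal (Ideal.span (Set.range ψ))
    exact ⟨_, (Submodule.IsPrincipal.span_singleton_generator (Ideal.span (Set.range ψ))).symm⟩
  have hdiv : ∀ i, ∃ q, ψ i = g * q := by
    intro i
    have h1 : ψ i ∈ Ideal.span (Set.range ψ) := Ideal.subset_span ⟨i, rfl⟩
    rw [hg, Ideal.mem_span_singleton] at h1
    exact h1
  choose φ hφ using hdiv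
  obtain ⟨u, hu⟩ : ∃ u : Fin 4 → Polynomial K, ∑ i, u i * ψ i = g := by
    have h1 : g ∈ Ideal.span (Set.range ψ) := by
      rw [hg]; exact Ideal.mem_span_singleton_self g
    exact (Ideal.mem_span_range_iff_exists_fun).mp h1
  have hg0 : g ≠ 0 := by
    rintro rfl
    obtain ⟨i, j, hij⟩ := hnc
    apply hij
    rw [hφ i, hφ j]
    ring
  have hbez : ∑ i, u i * φ i = 1 := by
    apply mul_left_cancel₀ hg0
    rw [mul_one, Finset.mul_sum]
    conv_rhs => rw [← hu]
    refine Finset.sum_congr rfl fun i _ => ?_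
    rw [hφ i]; ring
  have hFφ : T c φ φ φ = 0 := by
    rw [aeval_eq_T] at hψ
    have h1 : ψ = g • φ := by
      funext i
      rw [hφ i, Pi.smul_apply, smul_eq_mul]
    rw [h1, T_smul₁, T_smul₂, T_smul₃] at hψ
    have h2 := hψ
    simp only [mul_eq_zero, hg0, false_or] at h2
    exact h2
  -- the degree
  obtain ⟨d, hd1, j, hd2⟩ : ∃ d, (∀ i, (φ i).natDegree ≤ d) ∧ ∃ j, (φ j).natDegree = d := by
    obtain ⟨j, _, hj⟩ := Finset.exists_max_image Finset.univ (fun i => (φ i).natDegree)
      ⟨0, Finset.mem_univ _⟩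
    exact ⟨(φ j).natDegree, fun i => hj i (Finset.mem_univ i), j, rfl⟩
  have hd0 : 0 < d := by
    rcases Nat.eq_zero_or_pos d with h | h
    swap
    · exact h
    exfalso
    have h1 : ∀ i, φ i = Polynomial.C ((φ i).coeff 0) := fun i =>
      Polynomial.eq_C_of_natDegree_le_zero (h ▸ hd1 i)
    have h2 : ∀ i, Polynomial.aeval s g * algebraMap K (AlgebraicClosure K) ((φ i).coeff 0) =
        a * algebraMap K _ (x i) := by
      intro i
      rw [← hs i, hφ i, map_mul]
      conv_rhs => rw [h1 i]
      rw [Polynomial.aeval_C]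
    have h3 : ∀ i j, (φ i).coeff 0 * x j = (φ j).coeff 0 * x i := by
      intro i j
      apply (algebraMap K (AlgebraicClosure K)).injective
      rw [map_mul, map_mul]
      have hgs : Polynomial.aeval s g ≠ 0 := by
        intro h0
        apply hx
        funext i
        have := h2 i
        rw [h0, zero_mul] at this
        have := (mul_eq_zero.mp this.symm).resolve_left ha
        exact (map_eq_zero _).mp this
      apply mul_left_cancel₀ hgs
      linear_combination (algebraMap K (AlgebraicClosure K) (x j)) * h2 i -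
        (algebraMap K (AlgebraicClosure K) (x i)) * h2 j
    obtain ⟨i, j, hij⟩ := hnc
    apply hij
    rw [hφ i, hφ j, h1 i, h1 j, mul_assoc, mul_assoc, ← Polynomial.C_mul, ← Polynomial.C_mul, h3 i j]
  have hΦ0 : ∀ v : Fin 2 → AlgebraicClosure K, v 1 ≠ 0 →
      (T c (fun i => aeval v (hom2 d (φ i))) (fun i => aeval v (hom2 d (φ i)))
        (fun i => aeval v (hom2 d (φ i)))) = 0 := by
    intro v hv
    have h1 : (fun i => aeval v (hom2 d (φ i))) =
        (v 1 ^ d) • (fun i => Polynomial.aeval (v 0 / v 1) (φ i)) := by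
      funext i
      rw [aeval_hom2 d _ (hd1 i) v hv]
      rfl
    rw [h1, T_smul₁, T_smul₂, T_smul₃, ← T_algHom, hFφ, map_zero, mul_zero, mul_zero, mul_zero]
  refine ⟨⟨d, hd0, fun i => hom2 d (φ i), fun i => hom2_homog d (φ i), ?_, ?_⟩, ?_⟩
  · intro v hv
    by_cases h1 : v 1 = 0
    · refine ⟨j, ?_⟩
      rw [aeval_hom2_zero d _ v h1]
      have h0 : v 0 ≠ 0 := by
        intro h0
        apply hv
        funext i
        fin_cases i
        · exact h0
        · exact h1
      refine mul_ne_zero ?_ (pow_ne_zero _ h0)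
      rw [Ne, map_eq_zero]
      rw [← hd2, Polynomial.coeff_natDegree, Polynomial.leadingCoeff_eq_zero]
      intro h2
      rw [h2, Polynomial.natDegree_zero] at hd2
      omega
    · by_contra hcon
      push Not at hcon
      have h2 : ∀ i, Polynomial.aeval (v 0 / v 1) (φ i) = 0 := by
        intro i
        have := hcon i
        rw [aeval_hom2 d _ (hd1 i) v h1] at this
        exact (mul_eq_zero.mp this).resolve_left (pow_ne_zero _ h1)
      have h3 := congrArg (Polynomial.aeval (v 0 / v 1)) hbez
      simp [h2] at h3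
  · rw [aeval_eq_T]
    set P : MvPolynomial (Fin 2) K := T c (fun i => hom2 d (φ i)) (fun i => hom2 d (φ i))
      (fun i => hom2 d (φ i)) with hP
    have h1 : X 1 * MvPolynomial.map (algebraMap K (AlgebraicClosure K)) P = 0 := by
      apply MvPolynomial.funext
      intro v
      rw [map_mul, eval_X, map_zero]
      by_cases hv : v 1 = 0
      · rw [hv, zero_mul]
      · have h2 := hΦ0 v hv
        rw [← T_algHom, ← hP] at h2
        rw [eval_map, ← aeval_def, h2, mul_zero]
    have h2 := (mul_eq_zero.mp h1).resolve_left (X_ne_zero 1)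
    rw [← map_zero (MvPolynomial.map (algebraMap K (AlgebraicClosure K)))] at h2
    exact MvPolynomial.map_injective _ (algebraMap K (AlgebraicClosure K)).injective h2
  · have hgs : Polynomial.aeval s g ≠ 0 := by
      intro h0
      apply hx
      funext i
      have := hs i
      rw [hφ i, map_mul, h0, zero_mul] at this
      have := (mul_eq_zero.mp this.symm).resolve_left ha
      exact (map_eq_zero _).mp this
    refine ⟨![s, 1], ?_, a / Polynomial.aeval s g, div_ne_zero ha hgs, ?_⟩
    · intro h0
      have := congrFun h0 1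
      simp at this
    · intro i
      change aeval ![s, 1] (hom2 d (φ i)) = _
      rw [aeval_hom2 d _ (hd1 i) _ (by simp)]
      simp only [Matrix.cons_val_zero, Matrix.cons_val_one, div_one, one_pow, one_mul]
      have := hs i
      rw [hφ i, map_mul] at this
      field_simp
      linear_combination this

end Pool.Agent.H952R2.Cubic
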