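import Pool.Agent.H952R2.Cubic.Main

set_option autoImplicit false
set_option linter.unusedSimpArgs false

namespace Pool.Agent.H952R2.Cubic

open Polynomial

universe u

variable {K : Type u} [Field K]

theorem good_of_smooth [PerfectField K] (c : Co K)
    (hsm : ∀ x y w : AlgebraicClosure K, ¬ (x = 0 ∧ y = 0 ∧ w = 0) →
      (c.map (algebraMap K (AlgebraicClosure K))).ev x y 0 w = 0 →
      ∃ x' y' z' w', (c.map (algebraMap K (AlgebraicClosure K))).pol x y 0 w x' y' z' w' ≠ 0) :
    Good c := by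
  by_cases hq : c.α = 0 ∧ c.β = 0 ∧ c.γ = 0
  · obtain ⟨hα, hβ, hγ⟩ := hq
    by_cases hg : Aniso c
    · exact good_D c hα hβ hγ hg
    · unfold Aniso at hg
      push Not at hg
      obtain ⟨μ, ν, h1, h2⟩ := hg
      refine good_line c μ ν ?_ (by rw [hα, hβ, hγ]; ring) h1
      by_cases h : μ = 0
      · exact Or.inr (h2 h)
      · exact Or.inl h
  have hq' : c.α ≠ 0 ∨ c.β ≠ 0 ∨ c.γ ≠ 0 := by
    by_contra h
    push Not at h
    exact hq ⟨h.1, h.2.1, h.2.2⟩
  by_cases hα : c.α = 0
  · by_cases hk : c.k = 0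
    · exact good_line c 1 0 (Or.inl one_ne_zero) (by rw [hα]; ring) (by rw [hk]; ring)
    · refine good_cubic_infty c ?_ hα hk
      rcases hq' with h | h | h
      · exact absurd hα h
      · exact Or.inl h
      · exact Or.inr h
  -- the roots of the quadratic polynomial
  by_cases hroot : ∃ s : AlgebraicClosure K,
      algebraMap K _ c.α * s ^ 2 + algebraMap K _ c.β * s + algebraMap K _ c.γ = 0 ∧
      algebraMap K _ c.k * s ^ 3 + algebraMap K _ c.l * s ^ 2 + algebraMap K _ c.n * s +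
      algebraMap K _ c.r ≠ 0
  · obtain ⟨s, h1, h2⟩ := hroot
    exact good_cubic c s hq' h1 h2
  push Not at hroot
  by_cases hK : ∃ s : K, c.α * s ^ 2 + c.β * s + c.γ = 0
  · obtain ⟨s, hs⟩ := hK
    refine good_line c s 1 (Or.inr one_ne_zero) (by linear_combination hs) ?_
    have h1 := hroot (algebraMap K _ s) (by
      rw [← map_pow, ← map_mul, ← map_mul, ← map_add, ← map_add, hs, map_zero])
    apply (algebraMap K (AlgebraicClosure K)).injective
    simp only [map_add, map_mul, map_pow, map_one, map_zero]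
    linear_combination h1
  push Not at hK
  -- a root
  obtain ⟨s, hs⟩ : ∃ s : AlgebraicClosure K,
      algebraMap K _ c.α * s ^ 2 + algebraMap K _ c.β * s + algebraMap K _ c.γ = 0 := by
    obtain ⟨s, hs⟩ := IsAlgClosed.exists_aeval_eq_zero (AlgebraicClosure K)
      (C c.α * X ^ 2 + C c.β * X + C c.γ) (by
        rw [degree_quadratic hα]; decide)
    refine ⟨s, ?_⟩
    simpa using hs
  have hd : c.β ^ 2 - 4 * c.α * c.γ ≠ 0 := by
    intro hd
    by_cases h2 : (2 : K) = 0
    · have hβ : c.β ^ 2 = 0 := by linear_combination hd + 2 * c.α * c.γ * h2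
      have hβ := pow_eq_zero_iff (two_ne_zero) |>.mp hβ
      obtain ⟨t, ht⟩ := exists_sqrt h2 (c.γ / c.α)
      apply hK t
      rw [hβ, ht]
      field_simp
      linear_combination c.γ * h2
    · apply hK (-c.β / (2 * c.α))
      field_simp
      linear_combination -hd
  obtain ⟨p, hp⟩ : ∃ p, p = c.k / c.α := ⟨_, rfl⟩
  obtain ⟨q, hq0⟩ : ∃ q, q = (c.l - c.β * p) / c.α := ⟨_, rfl⟩
  have hp' : c.k = c.α * p := by rw [hp]; field_simp
  have hq1 : c.l = c.α * q + c.β * p := by rw [hq0]; field_simp; ring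
  have hg := hroot s hs
  have hrem : algebraMap K (AlgebraicClosure K) (c.n - c.β * q - c.γ * p) * s +
      algebraMap K (AlgebraicClosure K) (c.r - c.γ * q) = 0 := by
    rw [hp', hq1] at hg
    simp only [map_add, map_mul, map_sub] at hg ⊢
    linear_combination hg - (algebraMap K (AlgebraicClosure K) p * s +
      algebraMap K (AlgebraicClosure K) q) * hs
  have he : c.n - c.β * q - c.γ * p = 0 := by
    by_contra he
    apply hK (-(c.r - c.γ * q) / (c.n - c.β * q - c.γ * p))
    apply (algebraMap K (AlgebraicClosure K)).injective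
    have he' : algebraMap K (AlgebraicClosure K) (c.n - c.β * q - c.γ * p) ≠ 0 := by
      rw [Ne, map_eq_zero]; exact he
    have : s = algebraMap K (AlgebraicClosure K) (-(c.r - c.γ * q) / (c.n - c.β * q - c.γ * p)) := by
      rw [map_div₀, map_neg, eq_div_iff he']
      linear_combination hrem
    rw [this] at hs
    simp only [map_add, map_mul, map_pow, map_zero]
    exact hs
  have hf : c.r - c.γ * q = 0 := by
    rw [he, map_zero, zero_mul, zero_add] at hrem
    exact (map_eq_zero _).mp hrem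
  apply good_shear c p q
  refine good_conic (c.shear p q) hα hd ?_ ?_ ?_ ?_ s hs ?_
  · simp only [Co.shear]; linear_combination hp'
  · simp only [Co.shear]; linear_combination hq1
  · simp only [Co.shear]; linear_combination he
  · simp only [Co.shear]; linear_combination hf
  · intro h0
    have hn' : c.n = c.β * q + c.γ * p := by linear_combination he
    have hr' : c.r = c.γ * q := by linear_combination hf
    obtain ⟨x', y', z', w', h⟩ := hsm s 1 (-(algebraMap K _ p * s + algebraMap K _ q))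
      (by simp) (by
        simp only [Co.ev, Co.map, hp', hq1, hn', hr', map_add, map_mul]
        ring)
    apply h
    simp only [Co.shear, map_add, map_mul, map_sub, map_pow, map_ofNat] at h0
    simp only [Co.pol, Co.map, hp', hq1, hn', hr', map_add, map_mul]
    linear_combination z' * h0 + (w' + x' * algebraMap K (AlgebraicClosure K) p +
      y' * algebraMap K (AlgebraicClosure K) q) * hs

theorem D_eq_sum (c : Fin 4 → Fin 4 → Fin 4 → K) {S : Type u} [CommRing S] [Algebra K S]
    (v u : Fin 4 → S) : D c v u = ∑ i, u i * D c v (Pi.single i 1) := by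
  have h : u = u 0 • (Pi.single 0 1) + u 1 • (Pi.single 1 1) + u 2 • (Pi.single 2 1) +
      u 3 • (Pi.single 3 1) := by
    funext i
    fin_cases i <;> simp [Pi.single_apply]
  conv_lhs => rw [h]
  rw [Fin.sum_univ_four]
  unfold D
  simp only [T_add₁, T_add₂, T_add₃, T_smul₁, T_smul₂, T_smul₃]
  ring

theorem main [PerfectField K] (F : MvPolynomial (Fin 4) K) (hF : SmoothCubicSurface K F)
    (x : Fin 4 → K) (hx : x ≠ 0) (hFx : MvPolynomial.aeval x F = 0) :
    ∃ C : RatCurve K F, C.Contains x := by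
  obtain ⟨hhom, hsmooth⟩ := hF
  obtain ⟨c, hc⟩ := tensor_rep hhom
  -- gradient
  have hgrad : ∃ j, D c x (Pi.single j 1) ≠ 0 := by
    obtain ⟨j, hj⟩ := hsmooth (fun i => algebraMap K _ (x i)) (by
      intro h0
      apply hx
      funext i
      exact (map_eq_zero _).mp (congrFun h0 i)) (by
      rw [hc, aeval_eq_T, T_map]
      rw [hc, aeval_eq_T] at hFx
      rw [hFx, map_zero])
    refine ⟨j, ?_⟩
    rw [hc, aeval_pderiv_eq_T] at hj
    intro h0
    apply hj
    have h1 : (Pi.single j 1 : Fin 4 → AlgebraicClosure K) =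
        fun i => algebraMap K _ ((Pi.single j 1 : Fin 4 → K) i) := by
      funext i
      by_cases hi : i = j
      · subst hi; simp
      · simp [Pi.single_eq_of_ne hi]
    rw [h1, T_map, T_map, T_map, ← map_add, ← map_add]
    unfold D at h0
    rw [h0, map_zero]
  rw [hc, aeval_eq_T] at hFx
  have hDx : D c x x = 0 := by
    unfold D
    rw [hFx]; ring
  obtain ⟨i0, hi0⟩ : ∃ i, x i ≠ 0 := by
    by_contra h
    push Not at h
    exact hx (funext h)
  obtain ⟨j0, hj0, hij⟩ : ∃ j, D c x (Pi.single j 1) ≠ 0 ∧ j ≠ i0 := by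
    by_contra h
    push Not at h
    obtain ⟨j, hj⟩ := hgrad
    have hji := h j hj
    subst hji
    rw [D_eq_sum, Finset.sum_eq_single j] at hDx
    · rcases mul_eq_zero.mp hDx with h1 | h1
      · exact hi0 h1
      · exact hj h1
    · intro k _ hk
      by_contra h2
      exact hk (h k (right_ne_zero_of_mul h2))
    · simp
  obtain ⟨σ, hσ3, hσ2⟩ : ∃ σ : Equiv.Perm (Fin 4), σ 3 = i0 ∧ σ 2 = j0 := by
    refine ⟨Equiv.swap 3 i0 * Equiv.swap 2 (Equiv.swap 3 i0 j0), ?_, ?_⟩
    · have h3 : Equiv.swap 2 (Equiv.swap 3 i0 j0) 3 = 3 := by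
        apply Equiv.swap_apply_of_ne_of_ne (by decide)
        intro h
        apply hij
        have := congrArg (Equiv.swap 3 i0) h
        rw [Equiv.swap_apply_left, Equiv.swap_apply_self] at this
        exact this.symm
      rw [Equiv.Perm.mul_apply, h3, Equiv.swap_apply_left]
    · rw [Equiv.Perm.mul_apply, Equiv.swap_apply_left, Equiv.swap_apply_self]
  set g : Fin 4 → K := fun j => D c x (Pi.single j 1) with hg
  have hg2 : g (σ 2) ≠ 0 := by rw [hσ2]; exact hj0
  have hx3 : x (σ 3) ≠ 0 := by rw [hσ3]; exact hi0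
  obtain ⟨b, hb⟩ : ∃ b : Fin 4 → Fin 4 → K, b = ![
    fun i => (Pi.single (σ 0) 1 : Fin 4 → K) i - g (σ 0) / g (σ 2) * (Pi.single (σ 2) 1 : Fin 4 → K) i,
    fun i => (Pi.single (σ 1) 1 : Fin 4 → K) i - g (σ 1) / g (σ 2) * (Pi.single (σ 2) 1 : Fin 4 → K) i,
    fun i => 1 / g (σ 2) * (Pi.single (σ 2) 1 : Fin 4 → K) i, x] := ⟨_, rfl⟩
  have hb0 : b 0 = fun i => (Pi.single (σ 0) 1 : Fin 4 → K) i -
    g (σ 0) / g (σ 2) * (Pi.single (σ 2) 1 : Fin 4 → K) i := by rw [hb]; rfl
  have hb1 : b 1 = fun i => (Pi.single (σ 1) 1 : Fin 4 → K) i -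
    g (σ 1) / g (σ 2) * (Pi.single (σ 2) 1 : Fin 4 → K) i := by rw [hb]; rfl
  have hb2 : b 2 = fun i => 1 / g (σ 2) * (Pi.single (σ 2) 1 : Fin 4 → K) i := by rw [hb]; rfl
  have hb3 : b 3 = x := by rw [hb]; rfl
  have hsum : ∀ f : Fin 4 → K, ∑ i, f i = f (σ 0) + f (σ 1) + f (σ 2) + f (σ 3) := by
    intro f
    rw [← Equiv.sum_comp σ, Fin.sum_univ_four]
  have hinj : ∀ a a' : Fin 4, σ a = σ a' ↔ a = a' := fun a a' => σ.injective.eq_iff
  have hD0 : D c (b 3) (b 0) = 0 := by
    rw [hb3, D_eq_sum, hsum, hb0]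
    simp [Pi.single_apply, hinj]
    change g (σ 0) + -(g (σ 0) / g (σ 2) * g (σ 2)) = 0
    field_simp
    ring
  have hD1 : D c (b 3) (b 1) = 0 := by
    rw [hb3, D_eq_sum, hsum, hb1]
    simp [Pi.single_apply, hinj]
    change g (σ 1) + -(g (σ 1) / g (σ 2) * g (σ 2)) = 0
    field_simp
    ring
  have hD2 : D c (b 3) (b 2) = 1 := by
    rw [hb3, D_eq_sum, hsum, hb2]
    simp [Pi.single_apply, hinj]
    change (g (σ 2))⁻¹ * g (σ 2) = 1
    field_simp
  obtain ⟨Co', hCo⟩ := normal_form c b (by rw [hb3]; exact hFx) hD0 hD1 hD2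
  -- coordinates of `comb b`
  have hc0 : ∀ (S : Type u) [CommRing S] [Algebra K S] (y : Fin 4 → S),
      comb b y (σ 0) = y 0 + y 3 * algebraMap K S (x (σ 0)) := by
    intro S _ _ y
    unfold comb
    rw [Fin.sum_univ_four, hb0, hb1, hb2, hb3]
    simp [Pi.single_apply, hinj]
  have hc1 : ∀ (S : Type u) [CommRing S] [Algebra K S] (y : Fin 4 → S),
      comb b y (σ 1) = y 1 + y 3 * algebraMap K S (x (σ 1)) := by
    intro S _ _ y
    unfold comb
    rw [Fin.sum_univ_four, hb0, hb1, hb2, hb3]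
    simp [Pi.single_apply, hinj]
  have hc3 : ∀ (S : Type u) [CommRing S] [Algebra K S] (y : Fin 4 → S),
      comb b y (σ 3) = y 3 * algebraMap K S (x (σ 3)) := by
    intro S _ _ y
    unfold comb
    rw [Fin.sum_univ_four, hb0, hb1, hb2, hb3]
    simp [Pi.single_apply, hinj]
  have hc2 : ∀ (S : Type u) [CommRing S] [Algebra K S] (y : Fin 4 → S),
      comb b y (σ 2) = -(y 0 * algebraMap K S (g (σ 0) / g (σ 2))) -
        y 1 * algebraMap K S (g (σ 1) / g (σ 2)) + y 2 * algebraMap K S (1 / g (σ 2)) +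
        y 3 * algebraMap K S (x (σ 2)) := by
    intro S _ _ y
    unfold comb
    rw [Fin.sum_univ_four, hb0, hb1, hb2, hb3]
    simp [Pi.single_apply, hinj]
    ring
  -- smoothness in the new coordinates
  have hsm : ∀ x' y' w' : AlgebraicClosure K, ¬ (x' = 0 ∧ y' = 0 ∧ w' = 0) →
      (Co'.map (algebraMap K (AlgebraicClosure K))).ev x' y' 0 w' = 0 →
      ∃ x'' y'' z'' w'', (Co'.map (algebraMap K (AlgebraicClosure K))).pol x' y' 0 w'
        x'' y'' z'' w'' ≠ 0 := by
    intro x' y' w' hne hev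
    obtain ⟨h1, h2⟩ := hCo (AlgebraicClosure K) ![x', y', 0, w']
    have hev' : T c (comb b ![x', y', 0, w']) (comb b ![x', y', 0, w'])
        (comb b ![x', y', 0, w']) = 0 := by
      rw [h1]; exact hev
    obtain ⟨j, hj⟩ := hsmooth (comb b ![x', y', 0, w']) (by
      intro h0
      apply hne
      have e3 := congrFun h0 (σ 3)
      have e0 := congrFun h0 (σ 0)
      have e1 := congrFun h0 (σ 1)
      rw [hc3] at e3
      rw [hc0] at e0
      rw [hc1] at e1
      simp only [Pi.zero_apply, mul_eq_zero, map_eq_zero] at e3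
      have hw : (![x', y', 0, w'] : Fin 4 → AlgebraicClosure K) 3 = 0 :=
        e3.resolve_right hx3
      rw [hw, zero_mul, add_zero] at e0 e1
      exact ⟨e0, e1, hw⟩) (by rw [hc, aeval_eq_T]; exact hev')
    rw [hc, aeval_pderiv_eq_T] at hj
    -- solve `comb b y = e_j`
    set e : Fin 4 → AlgebraicClosure K := Pi.single j 1 with he
    let ι := algebraMap K (AlgebraicClosure K)
    let y3 : AlgebraicClosure K := e (σ 3) / ι (x (σ 3))
    let y0 : AlgebraicClosure K := e (σ 0) - y3 * ι (x (σ 0))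
    let y1 : AlgebraicClosure K := e (σ 1) - y3 * ι (x (σ 1))
    let y2 : AlgebraicClosure K := ι (g (σ 2)) * (e (σ 2) + y0 * ι (g (σ 0) / g (σ 2)) +
      y1 * ι (g (σ 1) / g (σ 2)) - y3 * ι (x (σ 2)))
    have hx3' : ι (x (σ 3)) ≠ 0 := by rw [Ne, map_eq_zero]; exact hx3
    have hg2' : ι (g (σ 2)) ≠ 0 := by rw [Ne, map_eq_zero]; exact hg2
    have hsol : comb b ![y0, y1, y2, y3] = e := by
      funext i
      obtain ⟨a, rfl⟩ := σ.surjective i
      fin_cases a
      · change comb b ![y0, y1, y2, y3] (σ 0) = e (σ 0)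
        rw [hc0]
        change y0 + y3 * ι (x (σ 0)) = e (σ 0)
        simp only [y0]; ring
      · change comb b ![y0, y1, y2, y3] (σ 1) = e (σ 1)
        rw [hc1]
        change y1 + y3 * ι (x (σ 1)) = e (σ 1)
        simp only [y1]; ring
      · change comb b ![y0, y1, y2, y3] (σ 2) = e (σ 2)
        rw [hc2]
        change -(y0 * ι (g (σ 0) / g (σ 2))) - y1 * ι (g (σ 1) / g (σ 2)) +
          y2 * ι (1 / g (σ 2)) + y3 * ι (x (σ 2)) = e (σ 2)
        have hh : ι (g (σ 2)) * ι (1 / g (σ 2)) = 1 := by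
          rw [← map_mul, mul_one_div_cancel hg2, map_one]
        simp only [y2]
        linear_combination (e (σ 2) + y0 * ι (g (σ 0) / g (σ 2)) +
          y1 * ι (g (σ 1) / g (σ 2)) - y3 * ι (x (σ 2))) * hh
      · change comb b ![y0, y1, y2, y3] (σ 3) = e (σ 3)
        rw [hc3]
        change y3 * ι (x (σ 3)) = e (σ 3)
        simp only [y3]
        field_simp
    have h3 := h2 ![y0, y1, y2, y3]
    rw [hsol] at h3
    refine ⟨y0, y1, y2, y3, ?_⟩
    intro h0
    apply hj
    have h4 : D c (comb b ![x', y', 0, w']) e = 0 := by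
      rw [h3]
      exact h0
    exact h4
  obtain ⟨ψ0, ψ1, ψ2, ψ3, s, g1, g2, g3, g4, g5, g6⟩ := good_of_smooth Co' hsm
  refine exists_ratCurve hhom (comb b ![ψ0, ψ1, ψ2, ψ3]) ?_ x hx s (aeval s ψ3) g5 ?_ ?_
  · rw [hc, aeval_eq_T, (hCo K[X] ![ψ0, ψ1, ψ2, ψ3]).1]
    exact g1
  · intro i
    unfold comb
    rw [Fin.sum_univ_four, hb3]
    simp only [map_add, map_mul, Matrix.cons_val_zero, Matrix.cons_val_one, Matrix.cons_val]
    rw [g2, g3, g4, zero_mul, zero_mul, zero_mul, zero_add, zero_add, zero_add]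
    congr 1
    rw [algebraMap_eq, aeval_C]
  · by_contra hcon
    push Not at hcon
    have q0 := hcon (σ 0) (σ 3)
    have q1 := hcon (σ 1) (σ 3)
    have q2 := hcon (σ 2) (σ 3)
    rw [hc0, hc3] at q0
    rw [hc1, hc3] at q1
    rw [hc2, hc3] at q2
    have hX : (C (x (σ 3)) : K[X]) ≠ 0 := C_ne_zero.mpr hx3
    have hG : (C (1 / g (σ 2)) : K[X]) ≠ 0 := C_ne_zero.mpr (one_div_ne_zero hg2)
    have p0 : ψ0 = 0 := by
      have : ψ0 * C (x (σ 3)) = 0 := by
        change (ψ0 + ψ3 * C (x (σ 0))) * C (x (σ 3)) = ψ3 * C (x (σ 3)) * C (x (σ 0)) at q0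
        linear_combination q0
      exact (mul_eq_zero.mp this).resolve_right hX
    have p1 : ψ1 = 0 := by
      have : ψ1 * C (x (σ 3)) = 0 := by
        change (ψ1 + ψ3 * C (x (σ 1))) * C (x (σ 3)) = ψ3 * C (x (σ 3)) * C (x (σ 1)) at q1
        linear_combination q1
      exact (mul_eq_zero.mp this).resolve_right hX
    have p2 : ψ2 = 0 := by
      have : ψ2 * C (1 / g (σ 2)) * C (x (σ 3)) = 0 := by
        change (-(ψ0 * C (g (σ 0) / g (σ 2))) - ψ1 * C (g (σ 1) / g (σ 2)) +
          ψ2 * C (1 / g (σ 2)) + ψ3 * C (x (σ 2))) * C (x (σ 3)) =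
          ψ3 * C (x (σ 3)) * C (x (σ 2)) at q2
        rw [p0, p1] at q2
        linear_combination q2
      exact (mul_eq_zero.mp ((mul_eq_zero.mp this).resolve_right hX)).resolve_right hG
    rcases g6 with h | h | h
    · exact h p0
    · exact h p1
    · exact h p2

end Pool.Agent.H952R2.Cubic
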