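import Pool.Agent.H952R2.Cubic.CaseD2
import Pool.Agent.H952R2.Cubic.Curve

set_option autoImplicit false
set_option linter.unusedSimpArgs false

namespace Pool.Agent.H952R2.Cubic

open Polynomial

universe u

variable {K : Type u} [Field K]

theorem exists_sqrt [PerfectField K] (h2 : (2 : K) = 0) (a : K) : ∃ b : K, b ^ 2 = a := by
  have : CharP K 2 := CharTwo.of_one_ne_zero_of_two_eq_zero one_ne_zero h2
  have : ExpChar K 2 := ExpChar.prime Nat.prime_two
  obtain ⟨b, hb⟩ := surjective_frobenius K 2 a
  exact ⟨b, by rw [← hb, frobenius_def]⟩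

theorem exists_cbrt [PerfectField K] (h3 : (3 : K) = 0) (a : K) : ∃ b : K, b ^ 3 = a := by
  have : CharP K 3 := by
    refine (CharP.charP_iff_prime_eq_zero Nat.prime_three).mpr ?_
    exact_mod_cast h3
  have : ExpChar K 3 := ExpChar.prime Nat.prime_three
  obtain ⟨b, hb⟩ := surjective_frobenius K 3 a
  exact ⟨b, by rw [← hb, frobenius_def]⟩

theorem good_D [PerfectField K] (c : Co K) (hα : c.α = 0) (hβ : c.β = 0) (hγ : c.γ = 0)
    (hg : Aniso c) : Good c := by
  have hk : c.k ≠ 0 := by
    intro h0
    exact one_ne_zero (hg 1 0 (by rw [h0]; ring)).1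
  have hr : c.r ≠ 0 := by
    intro h0
    exact one_ne_zero (hg 0 1 (by rw [h0]; ring)).2
  by_cases H : ∃ a b : K, (c.trans a b).m3 ^ 2 - 4 * (c.trans a b).h6 = 0
  · obtain ⟨a, b, hab⟩ := H
    apply good_trans c hα hβ hγ a b
    by_cases h2 : (2 : K) = 0
    · have h4 : (4 : K) = 0 := by linear_combination 2 * h2
      rw [h4, zero_mul, sub_zero] at hab
      have hm := pow_eq_zero_iff (two_ne_zero) |>.mp hab
      obtain ⟨w0, hw0⟩ := exists_sqrt h2 ((c.trans a b).h6)
      refine good_D0 (c.trans a b) hα hβ hγ w0 (by rw [hm, h2]; ring) ?_ hg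
      rw [hm, hw0]
      linear_combination ((c.trans a b).h6) * h2
    · refine good_D0 (c.trans a b) hα hβ hγ (-(c.trans a b).m3 / 2) (by field_simp; ring) ?_ hg
      field_simp
      linear_combination -hab
  · push Not at H
    by_contra hcon
    have key : ∀ a b : K, ((c.trans a b).m3 ^ 2 - 4 * (c.trans a b).h6) * (c.trans a b).h1 +
          (c.trans a b).m1 ^ 2 * (c.trans a b).h6 -
          (c.trans a b).m3 * (c.trans a b).m1 * (c.trans a b).h4 + (c.trans a b).h4 ^ 2 = 0 ∧
        ((c.trans a b).m3 ^ 2 - 4 * (c.trans a b).h6) * (c.trans a b).h2 +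
          2 * (c.trans a b).m1 * (c.trans a b).m2 * (c.trans a b).h6 -
          (c.trans a b).m3 * ((c.trans a b).m1 * (c.trans a b).h5 +
            (c.trans a b).m2 * (c.trans a b).h4) +
          2 * (c.trans a b).h4 * (c.trans a b).h5 = 0 ∧
        ((c.trans a b).m3 ^ 2 - 4 * (c.trans a b).h6) * (c.trans a b).h3 +
          (c.trans a b).m2 ^ 2 * (c.trans a b).h6 -
          (c.trans a b).m3 * (c.trans a b).m2 * (c.trans a b).h5 + (c.trans a b).h5 ^ 2 = 0 := by
      intro a b
      by_contra h
      apply hcon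
      apply good_trans c hα hβ hγ a b
      refine good_D1 (c.trans a b) hα hβ hγ (H a b) hg ?_
      by_contra h'
      push Not at h'
      exact h ⟨h'.1, h'.2.1, h'.2.2⟩
    by_cases h2 : (2 : K) = 0
    · -- characteristic two
      have h3 : (3 : K) = 1 := by linear_combination h2
      have h4 : (4 : K) = 0 := by linear_combination 2 * h2
      have hm1 : c.m1 = 0 := by
        by_contra hm
        apply H (-c.m3 / c.m1) 0
        rw [h4]
        simp only [Co.trans]
        field_simp
        ring
      have hm2 : c.m2 = 0 := by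
        by_contra hm
        apply H 0 (-c.m3 / c.m2)
        rw [h4]
        simp only [Co.trans]
        field_simp
        ring
      have hm3 : c.m3 ≠ 0 := by
        intro hm
        apply H 0 0
        rw [h4]
        simp only [Co.trans, hm1, hm2, hm]
        ring
      obtain ⟨a1, a2, a3⟩ := key 0 0
      obtain ⟨b1, b2, b3⟩ := key 1 0
      obtain ⟨d1, d2, d3⟩ := key 0 1
      simp only [Co.trans, hm1, hm2, h4, h3, h2] at a1 a2 a3 b1 b2 b3 d1 d2 d3
      ring_nf at a1 a2 a3 b1 b2 b3 d1 d2 d3
      have hh2 : c.h2 = 0 := by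
        have : c.m3 ^ 2 * c.h2 = 0 := by linear_combination a2
        exact (mul_eq_zero.mp this).resolve_left (pow_ne_zero _ hm3)
      rw [hh2] at b3 d1
      have ek : c.k = -c.m3 ^ 2 := by
        have : c.k * (c.k + c.m3 ^ 2) = 0 := by
          linear_combination b1 - a1 - c.k * c.h4 * h2
        have := (mul_eq_zero.mp this).resolve_left hk
        linear_combination this
      have er : c.r = -c.m3 ^ 2 := by
        have : c.r * (c.r + c.m3 ^ 2) = 0 := by
          linear_combination d3 - a3 - c.r * c.h5 * h2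
        have := (mul_eq_zero.mp this).resolve_left hr
        linear_combination this
      have en : c.n ^ 2 = -c.m3 ^ 2 * c.l := by
        linear_combination d1 - a1 - c.n * c.h4 * h2
      have el : c.l ^ 2 = -c.m3 ^ 2 * c.n := by
        linear_combination b3 - a3 - c.l * c.h5 * h2
      by_cases hl : c.l = 0
      · have hn : c.n = 0 := by
          rw [hl, mul_zero] at en
          exact pow_eq_zero_iff (two_ne_zero) |>.mp en
        have := (hg 1 1 (by rw [hl, hn, ek, er]; linear_combination -c.m3 ^ 2 * h2)).1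
        exact one_ne_zero this
      · have hl3 : c.l ^ 3 = -c.m3 ^ 6 := by
          apply mul_left_cancel₀ hl
          have e4 : c.l ^ 4 = c.m3 ^ 4 * c.n ^ 2 := by
            have : c.l ^ 4 = (c.l ^ 2) ^ 2 := by ring
            rw [this, el]; ring
          linear_combination e4 + c.m3 ^ 4 * en
        have := (hg c.l (c.m3 ^ 2) (by
          rw [ek, er]
          linear_combination c.m3 ^ 2 * c.l * el - c.m3 ^ 2 * hl3)).1
        exact hl this
    · by_cases h3 : (3 : K) = 0
      · -- characteristic three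
        obtain ⟨a0, -, -⟩ := key 0 0
        obtain ⟨a1, -, -⟩ := key 1 0
        simp only [Co.trans] at a0 a1
        have e1 : c.h1 = c.m1 ^ 2 := by
          have : c.k * (c.m1 ^ 2 - c.h1) = 0 := by
            linear_combination a1 - a0 + (c.k ^ 2 + c.k * c.h1 + 2 * c.k * c.h4 + 4 * c.k * c.h6
              - c.k * c.m3 ^ 2 - c.k * c.m1 * c.m3) * h3
          have := (mul_eq_zero.mp this).resolve_left hk
          linear_combination -this
        have e2 : (c.h4 + c.m1 * c.m3) ^ 2 = 0 := by
          rw [e1] at a0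
          linear_combination a0 + (c.h4 * c.m1 * c.m3 + c.h6 * c.m1 ^ 2) * h3
        have e3 : c.h4 + c.m1 * c.m3 = 0 := pow_eq_zero_iff (two_ne_zero) |>.mp e2
        obtain ⟨t, ht⟩ := exists_cbrt h3 ((c.m3 ^ 2 - c.h6) / c.k)
        apply H t 0
        simp only [Co.trans, e1]
        field_simp at ht
        linear_combination -ht + (-c.k * t ^ 3 - c.m1 ^ 2 * t ^ 2 - c.h6 + 2 * c.m1 * c.m3 * t) * h3 -
          4 * t * e3
      · obtain ⟨a0, -, -⟩ := key 0 0
        obtain ⟨a1, -, -⟩ := key 1 0
        obtain ⟨a2, -, -⟩ := key 2 0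
        obtain ⟨a3, -, -⟩ := key 3 0
        obtain ⟨a4, -, -⟩ := key 4 0
        simp only [Co.trans] at a0 a1 a2 a3 a4
        have : (2 : K) ^ 3 * 3 ^ 2 * c.k ^ 2 = 0 := by
          linear_combination -(a0 - 4 * a1 + 6 * a2 - 4 * a3 + a4)
        have h5 := (mul_eq_zero.mp this).resolve_left
          (mul_ne_zero (pow_ne_zero _ h2) (pow_ne_zero _ h3))
        exact hk (pow_eq_zero_iff (two_ne_zero) |>.mp h5)

end Pool.Agent.H952R2.Cubic
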